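import Pool.Agent.H91.RF.TargetsF
import Pool.Agent.H29.TF.Heat

/-!
# MP_609556_an, module ENT: entropy inequalities for one step
-/

open MeasureTheory Set Filter Topology Metric
open Pool.Agent.H29.TF
open Pool.Agent.H91.RD

namespace Pool.Agent.H28.RF.ENT

open Pool.Agent.H91.RF

/-- the heat kernel times an exponential: completing the square -/
theorem hk_exp {N : ℕ} {S : ℝ} (hS : 0 < S) (θ : ℝ) (e : E N) (he : ‖e‖ = 1) (x y : E N) :
    hk S (x - y) * Real.exp (θ * inner ℝ (y - x) e) =
      Real.exp (S * θ ^ 2) * hk S ((x + (2 * S * θ) • e) - y) := by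
  unfold hk
  have h1 : Real.exp (-‖x - y‖ ^ 2 / (4 * S)) * Real.exp (θ * inner ℝ (y - x) e) =
      Real.exp (S * θ ^ 2) * Real.exp (-‖x + (2 * S * θ) • e - y‖ ^ 2 / (4 * S)) := by
    rw [← Real.exp_add, ← Real.exp_add]
    congr 1
    have e1 : x + (2 * S * θ) • e - y = (x - y) + (2 * S * θ) • e := by abel
    rw [e1, norm_add_sq_real, norm_smul, inner_smul_right, he]
    have e2 : inner ℝ (y - x) e = -inner ℝ (x - y) e := by
      rw [← neg_sub x y, inner_neg_left]
    rw [e2, Real.norm_eq_abs, mul_one, sq_abs]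
    field_simp
    ring
  linear_combination ((4 * Real.pi * S) ^ (-(Module.finrank ℝ (E N) : ℝ) / 2)) * h1

/-- the heat kernel times the exponential of the square -/
theorem hk_exp2 {N : ℕ} {S : ℝ} (hS : 0 < S) (x y : E N) :
    hk S (x - y) * Real.exp (‖y - x‖ ^ 2 / (8 * S)) =
      (2 : ℝ) ^ ((N : ℝ) / 2) * hk (2 * S) (x - y) := by
  unfold hk
  have h1 : Real.exp (-‖x - y‖ ^ 2 / (4 * S)) * Real.exp (‖y - x‖ ^ 2 / (8 * S)) =
      Real.exp (-‖x - y‖ ^ 2 / (4 * (2 * S))) := by
    rw [← Real.exp_add]
    congr 1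
    rw [norm_sub_rev y x]
    field_simp
    ring
  have h2 : (4 * Real.pi * S) ^ (-(Module.finrank ℝ (E N) : ℝ) / 2) =
      (2 : ℝ) ^ ((N : ℝ) / 2) * (4 * Real.pi * (2 * S)) ^ (-(Module.finrank ℝ (E N) : ℝ) / 2) := by
    have h3 : (2 * (4 * Real.pi * S)) ^ (-(N : ℝ) / 2) =
        (2 : ℝ) ^ (-(N : ℝ) / 2) * (4 * Real.pi * S) ^ (-(N : ℝ) / 2) :=
      Real.mul_rpow (by norm_num) (by positivity)
    have h4 : (2 : ℝ) ^ ((N : ℝ) / 2) * (2 : ℝ) ^ (-(N : ℝ) / 2) = 1 := by
      rw [← Real.rpow_add (by norm_num), show (N : ℝ) / 2 + -(N : ℝ) / 2 = 0 by ring,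
        Real.rpow_zero]
    rw [show 4 * Real.pi * (2 * S) = 2 * (4 * Real.pi * S) by ring, finrank_euclideanSpace,
      Fintype.card_fin, h3, ← mul_assoc, h4, one_mul]
  rw [h2]
  linear_combination ((2 : ℝ) ^ ((N : ℝ) / 2) *
    (4 * Real.pi * (2 * S)) ^ (-(Module.finrank ℝ (E N) : ℝ) / 2)) * h1

/-- `|h log h|` is bounded on `[0, M]` -/
theorem hlog_bdd (M : ℝ) : ∃ B, ∀ s, 0 ≤ s → s ≤ M → |s * Real.log s| ≤ B := by
  have hc : ContinuousOn (fun s : ℝ => |s * Real.log s|) (Icc 0 M) :=
    (Real.continuous_mul_log.abs).continuousOn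
  obtain ⟨B, hB⟩ := isCompact_Icc.bddAbove_image hc
  exact ⟨B, fun s h0 h1 => hB ⟨s, ⟨h0, h1⟩, rfl⟩⟩

/-- the general entropy inequality -/
theorem key {N : ℕ} (G h k φ : E N → ℝ) (KS M c : ℝ) (hGm : Measurable G) (hhm : Measurable h)
    (hG : ∀ y, 0 < G y) (hk0 : ∀ y, 0 < k y) (hGk : ∀ y, G y ≤ Real.exp KS * k y)
    (hki : Integrable k) (hh0 : ∀ y, 0 ≤ h y) (hhM : ∀ y, h y ≤ M)
    (hφi : Integrable (fun y => G y * h y * φ y))
    (hc : 0 < c) (hei : Integrable (fun y => k y * Real.exp (φ y)))
    (hec : ∫ y, k y * Real.exp (φ y) = c) (hn : 0 < ∫ y, G y * h y) :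
    Real.log (∫ y, G y * h y) - KS - Real.log c + (∫ y, G y * h y * φ y) / (∫ y, G y * h y) ≤
      (∫ y, G y * h y * Real.log (h y)) / ∫ y, G y * h y := by
  set n := ∫ y, G y * h y with hndef
  have hM0 : 0 ≤ M := (hh0 0).trans (hhM 0)
  have hGh : Integrable (fun y => G y * h y) := by
    refine Integrable.mono' (hki.const_mul (Real.exp KS * M))
      (hGm.mul hhm).aestronglyMeasurable (Filter.Eventually.of_forall fun y => ?_)
    rw [Real.norm_of_nonneg (mul_nonneg (hG y).le (hh0 y))]
    calc G y * h y ≤ (Real.exp KS * k y) * M :=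
          mul_le_mul (hGk y) (hhM y) (hh0 y) (mul_nonneg (Real.exp_pos _).le (hk0 y).le)
      _ = _ := by ring
  obtain ⟨B, hB⟩ := hlog_bdd M
  have hlog : Integrable (fun y => G y * h y * Real.log (h y)) := by
    refine Integrable.mono' (hki.const_mul (Real.exp KS * B))
      ((hGm.mul hhm).mul hhm.log).aestronglyMeasurable (Filter.Eventually.of_forall fun y => ?_)
    rw [mul_assoc, norm_mul, Real.norm_of_nonneg (hG y).le, Real.norm_eq_abs]
    calc G y * |h y * Real.log (h y)| ≤ (Real.exp KS * k y) * B :=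
          mul_le_mul (hGk y) (hB _ (hh0 y) (hhM y)) (abs_nonneg _)
            (mul_nonneg (Real.exp_pos _).le (hk0 y).le)
      _ = _ := by ring
  have hpt : ∀ y, G y * h y * φ y - (KS - Real.log n + Real.log c) * (G y * h y) -
      G y * h y * Real.log (h y) ≤ n / c * (k y * Real.exp (φ y)) - G y * h y := by
    intro y
    rcases (hh0 y).eq_or_lt with h0 | h0
    · rw [← h0]
      have : 0 ≤ n / c * (k y * Real.exp (φ y)) :=
        mul_nonneg (div_nonneg hn.le hc.le) (mul_nonneg (hk0 y).le (Real.exp_pos _).le)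
      simp only [mul_zero, zero_mul, sub_zero]
      exact this
    · have hA : 0 < G y * h y := mul_pos (hG y) h0
      have hX : 0 < n / c * (k y * Real.exp (φ y)) / (G y * h y) := by
        have := hk0 y
        positivity
      have h1 := Real.log_le_sub_one_of_pos hX
      have h2 : Real.log (n / c * (k y * Real.exp (φ y)) / (G y * h y)) =
          Real.log n - Real.log c + (Real.log (k y) + φ y) -
            (Real.log (G y) + Real.log (h y)) := by
        rw [Real.log_div (by have := hk0 y; positivity) hA.ne',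
          Real.log_mul (by positivity) (by have := hk0 y; positivity),
          Real.log_div hn.ne' hc.ne', Real.log_mul (hk0 y).ne' (Real.exp_pos _).ne',
          Real.log_exp, Real.log_mul (hG y).ne' h0.ne']
      have h3 : Real.log (G y) ≤ KS + Real.log (k y) := by
        have := Real.log_le_log (hG y) (hGk y)
        rwa [Real.log_mul (Real.exp_pos _).ne' (hk0 y).ne', Real.log_exp] at this
      have h4 : φ y - (KS - Real.log n + Real.log c) - Real.log (h y) ≤
          n / c * (k y * Real.exp (φ y)) / (G y * h y) - 1 := by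
        rw [h2] at h1
        linarith
      have h5 := mul_le_mul_of_nonneg_left h4 hA.le
      have h6 : G y * h y * (n / c * (k y * Real.exp (φ y)) / (G y * h y) - 1) =
          n / c * (k y * Real.exp (φ y)) - G y * h y := by
        rw [mul_sub, mul_one, mul_div_cancel₀ _ hA.ne']
      rw [h6] at h5
      linarith
  have hint := integral_mono ((hφi.sub (hGh.const_mul (KS - Real.log n + Real.log c))).sub hlog)
    ((hei.const_mul (n / c)).sub hGh) hpt
  have hL : (∫ y, (fun y => G y * h y * φ y - (KS - Real.log n + Real.log c) * (G y * h y) -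
      G y * h y * Real.log (h y)) y) = (∫ y, G y * h y * φ y) -
        (KS - Real.log n + Real.log c) * n - ∫ y, G y * h y * Real.log (h y) := by
    have e1 := integral_sub (hφi.sub (hGh.const_mul (KS - Real.log n + Real.log c))) hlog
    have e2 := integral_sub hφi (hGh.const_mul (KS - Real.log n + Real.log c))
    have e3 : ∫ y, (KS - Real.log n + Real.log c) * (G y * h y) =
        (KS - Real.log n + Real.log c) * n := by rw [integral_const_mul]
    simp only [Pi.sub_apply] at e1 e2
    rw [e3] at e2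
    rw [e2] at e1
    exact e1
  have hR : (∫ y, (fun y => n / c * (k y * Real.exp (φ y)) - G y * h y) y) = 0 := by
    have e1 := integral_sub (hei.const_mul (n / c)) hGh
    rw [integral_const_mul, hec] at e1
    rw [e1, ← hndef, div_mul_cancel₀ _ hc.ne', sub_self]
  have hint2 : (∫ y, G y * h y * φ y) - (KS - Real.log n + Real.log c) * n -
      ∫ y, G y * h y * Real.log (h y) ≤ 0 := by
    rw [← hL, ← hR]
    exact hint
  rw [div_eq_mul_inv, div_eq_mul_inv]
  have hn' := inv_pos.2 hn
  have h7 := mul_le_mul_of_nonneg_right hint2 hn'.le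
  rw [zero_mul, sub_mul, sub_mul, mul_assoc (KS - Real.log n + Real.log c), mul_inv_cancel₀ hn.ne']
    at h7
  linarith

theorem ent (hKER : T_KER) : T_ENT := by
  intro N K S t V h x hV hS hhm hh0 ⟨M, hM⟩ hn
  obtain ⟨hm, hb, -⟩ := hKER N K V hV
  have hlt : t - S < t := by linarith
  have hts : t - (t - S) = S := by ring
  have hGm : Measurable (fun y : E N => gk V t x (t - S) y) :=
    (hm (t - S) t hlt).comp (measurable_const.prodMk measurable_id)
  have hb1 : ∀ y, gk V t x (t - S) y ≤ Real.exp (K * S) * hk S (x - y) := by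
    intro y
    have := (hb (t - S) t hlt x y).2
    rwa [hts] at this
  have hb0 : ∀ y, 0 < gk V t x (t - S) y := by
    intro y
    have := (hb (t - S) t hlt x y).1
    rw [hts] at this
    exact lt_of_lt_of_le (mul_pos (Real.exp_pos _) (hk_pos hS _)) this
  have hki : Integrable (fun y : E N => hk S (x - y)) := integrable_hk_sub hS x
  have hdom : ∀ φ : E N → ℝ, Measurable φ → Integrable (fun y => hk S (x - y) * |φ y|) →
      Integrable (fun y => gk V t x (t - S) y * h y * φ y) := by
    intro φ hφ hi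
    refine Integrable.mono' (hi.const_mul (Real.exp (K * S) * M))
      ((hGm.mul hhm).mul hφ).aestronglyMeasurable (Filter.Eventually.of_forall fun y => ?_)
    rw [norm_mul, Real.norm_of_nonneg (mul_nonneg (hb0 y).le (hh0 y)), Real.norm_eq_abs]
    calc gk V t x (t - S) y * h y * |φ y| ≤ (Real.exp (K * S) * hk S (x - y)) * M * |φ y| := by
          refine mul_le_mul_of_nonneg_right ?_ (abs_nonneg _)
          exact mul_le_mul (hb1 y) (hM y) (hh0 y)
            (mul_nonneg (Real.exp_pos _).le (hk_pos hS _).le)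
      _ = _ := by ring
  have hexpi : ∀ (θ : ℝ) (e : E N), ‖e‖ = 1 →
      Integrable (fun y => hk S (x - y) * Real.exp (θ * inner ℝ (y - x) e)) := by
    intro θ e he
    have : (fun y => hk S (x - y) * Real.exp (θ * inner ℝ (y - x) e)) =
        fun y => Real.exp (S * θ ^ 2) * hk S ((x + (2 * S * θ) • e) - y) := by
      ext y; exact hk_exp hS θ e he x y
    rw [this]
    exact (integrable_hk_sub hS _).const_mul _
  refine ⟨?_, ?_⟩
  · intro e he
    set m := Ex V h S t x (fun y => inner ℝ (y - x) e) with hm'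
    set θ := m / (2 * S) with hθ
    have habs : Integrable (fun y => hk S (x - y) * |θ * inner ℝ (y - x) e|) := by
      refine Integrable.mono' ((hexpi θ e he).add (hexpi (-θ) e he)) (Measurable.aestronglyMeasurable
        (by
          refine Measurable.mul ?_ ?_
          · exact ((continuous_hk S).comp (by fun_prop)).measurable
          · fun_prop)) (Filter.Eventually.of_forall fun y => ?_)
      rw [Real.norm_of_nonneg (mul_nonneg (hk_pos hS _).le (abs_nonneg _))]
      simp only [Pi.add_apply]
      rw [← mul_add]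
      refine mul_le_mul_of_nonneg_left ?_ (hk_pos hS _).le
      rw [neg_mul]
      rcases abs_cases (θ * inner ℝ (y - x) e) with ⟨h1, -⟩ | ⟨h1, -⟩
      · rw [h1]
        have := Real.add_one_le_exp (θ * inner ℝ (y - x) e)
        have := Real.exp_pos (-(θ * inner ℝ (y - x) e))
        linarith
      · rw [h1]
        have := Real.add_one_le_exp (-(θ * inner ℝ (y - x) e))
        have := Real.exp_pos (θ * inner ℝ (y - x) e)
        linarith
    have hc : ∫ y, hk S (x - y) * Real.exp (θ * inner ℝ (y - x) e) = Real.exp (S * θ ^ 2) := by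
      have : (fun y => hk S (x - y) * Real.exp (θ * inner ℝ (y - x) e)) =
          fun y => Real.exp (S * θ ^ 2) * hk S ((x + (2 * S * θ) • e) - y) := by
        ext y; exact hk_exp hS θ e he x y
      rw [this, integral_const_mul, integral_hk_sub hS, mul_one]
    have hk1 := key (fun y => gk V t x (t - S) y) h (fun y => hk S (x - y))
      (fun y => θ * inner ℝ (y - x) e) (K * S) M (Real.exp (S * θ ^ 2)) hGm hhm hb0
      (fun y => hk_pos hS _) hb1 hki hh0 hM
      (hdom _ (by fun_prop) habs) (Real.exp_pos _) (hexpi θ e he) hc hn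
    have hE : (∫ y, gk V t x (t - S) y * h y * (θ * inner ℝ (y - x) e)) /
        (∫ y, gk V t x (t - S) y * h y) = θ * m := by
      rw [hm']
      unfold Ex
      rw [← mul_div_assoc, ← integral_const_mul]
      congr 2
      ext y
      ring
    rw [hE, Real.log_exp] at hk1
    have hfin : θ * m - S * θ ^ 2 = m ^ 2 / (4 * S) := by
      rw [hθ]
      field_simp
      ring
    unfold Ex
    linarith
  · have hexp2 : (fun y => hk S (x - y) * Real.exp (‖y - x‖ ^ 2 / (8 * S))) =
        fun y => (2 : ℝ) ^ ((N : ℝ) / 2) * hk (2 * S) (x - y) := by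
      ext y; exact hk_exp2 hS x y
    have hi2 : Integrable (fun y => hk S (x - y) * Real.exp (‖y - x‖ ^ 2 / (8 * S))) := by
      rw [hexp2]
      exact (integrable_hk_sub (by positivity) _).const_mul _
    have hc : ∫ y, hk S (x - y) * Real.exp (‖y - x‖ ^ 2 / (8 * S)) = (2 : ℝ) ^ ((N : ℝ) / 2) := by
      rw [hexp2, integral_const_mul, integral_hk_sub (by positivity), mul_one]
    have habs : Integrable (fun y => hk S (x - y) * |‖y - x‖ ^ 2 / (8 * S)|) := by
      refine Integrable.mono' hi2 (Measurable.aestronglyMeasurable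
        (by
          refine Measurable.mul ?_ ?_
          · exact ((continuous_hk S).comp (by fun_prop)).measurable
          · fun_prop)) (Filter.Eventually.of_forall fun y => ?_)
      rw [Real.norm_of_nonneg (mul_nonneg (hk_pos hS _).le (abs_nonneg _))]
      refine mul_le_mul_of_nonneg_left ?_ (hk_pos hS _).le
      rw [abs_of_nonneg (by positivity)]
      have := Real.add_one_le_exp (‖y - x‖ ^ 2 / (8 * S))
      linarith
    have hk1 := key (fun y => gk V t x (t - S) y) h (fun y => hk S (x - y))
      (fun y => ‖y - x‖ ^ 2 / (8 * S)) (K * S) M ((2 : ℝ) ^ ((N : ℝ) / 2)) hGm hhm hb0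
      (fun y => hk_pos hS _) hb1 hki hh0 hM
      (hdom _ (by fun_prop) habs) (by positivity) hi2 hc hn
    have hE : (∫ y, gk V t x (t - S) y * h y * (‖y - x‖ ^ 2 / (8 * S))) /
        (∫ y, gk V t x (t - S) y * h y) = Ex V h S t x (fun y => ‖y - x‖ ^ 2) / (8 * S) := by
      unfold Ex
      rw [div_right_comm]
      congr 1
      rw [← integral_div]
      congr 1
      ext y
      ring
    rw [hE, Real.log_rpow (by norm_num)] at hk1
    unfold Ex at hk1 ⊢
    linarith

end Pool.Agent.H28.RF.ENT
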