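import Pool.Agent.H91.RF.TargetsF
import Pool.Agent.H90.RD.Line
import Pool.Agent.H54.RD.Hke
import Pool.Agent.H35.RD.Base

/-!
# MP_609556_an, full answer: module MPV
(comparison of a Duhamel solution with a smooth supersolution)
-/

open MeasureTheory Set Filter Topology Metric
open Pool.Agent.H29.TF
open Pool.Agent.H91.RD Pool.Agent.H91.RF

namespace Pool.Agent.H28.RF.MPV

variable {N : ℕ}

/-! ### Gaussian bounds -/

theorem hk_scale {t s : ℝ} (ht : 0 < t) (h1 : t ≤ s) (h2 : s ≤ 2 * t) (z : E N) :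
    hk s z ≤ (2 : ℝ) ^ ((N : ℝ) / 2) * hk (2 * t) z := by
  unfold hk
  rw [finrank_euclideanSpace_fin]
  have hs : 0 < s := lt_of_lt_of_le ht h1
  have e1 : (4 * Real.pi * s) ^ (-(N : ℝ) / 2) ≤ (4 * Real.pi * t) ^ (-(N : ℝ) / 2) := by
    apply Real.rpow_le_rpow_of_nonpos (by positivity)
    · have := Real.pi_pos
      nlinarith
    · have : (0 : ℝ) ≤ N := Nat.cast_nonneg N
      linarith
  have e2 : (4 * Real.pi * t) ^ (-(N : ℝ) / 2) =
      (2 : ℝ) ^ ((N : ℝ) / 2) * (4 * Real.pi * (2 * t)) ^ (-(N : ℝ) / 2) := by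
    have h3 : (4 * Real.pi * (2 * t)) ^ (-(N : ℝ) / 2) =
        (2 : ℝ) ^ (-(N : ℝ) / 2) * (4 * Real.pi * t) ^ (-(N : ℝ) / 2) := by
      rw [← Real.mul_rpow (by positivity) (by positivity)]; congr 1; ring
    rw [h3, ← mul_assoc, ← Real.rpow_add (by norm_num)]
    have : (N : ℝ) / 2 + -(N : ℝ) / 2 = 0 := by ring
    rw [this, Real.rpow_zero, one_mul]
  have e3 : Real.exp (-‖z‖ ^ 2 / (4 * s)) ≤ Real.exp (-‖z‖ ^ 2 / (4 * (2 * t))) := by
    apply Real.exp_le_exp.2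
    rw [neg_div, neg_div, neg_le_neg_iff]
    apply div_le_div_of_nonneg_left (by positivity) (by positivity)
    linarith
  calc _ ≤ (4 * Real.pi * t) ^ (-(N : ℝ) / 2) * Real.exp (-‖z‖ ^ 2 / (4 * (2 * t))) :=
        mul_le_mul e1 e3 (Real.exp_pos _).le (by positivity)
    _ = _ := by rw [e2]; ring

theorem hk_dom {t : ℝ} (ht : 0 < t) (z : E N) :
    hk t z * (1 + ‖z‖ ^ 2) ≤ (2 : ℝ) ^ ((N : ℝ) / 2) * (1 + 8 * t) * hk (2 * t) z := by
  unfold hk
  rw [finrank_euclideanSpace_fin]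
  have e2 : (4 * Real.pi * t) ^ (-(N : ℝ) / 2) =
      (2 : ℝ) ^ ((N : ℝ) / 2) * (4 * Real.pi * (2 * t)) ^ (-(N : ℝ) / 2) := by
    have h3 : (4 * Real.pi * (2 * t)) ^ (-(N : ℝ) / 2) =
        (2 : ℝ) ^ (-(N : ℝ) / 2) * (4 * Real.pi * t) ^ (-(N : ℝ) / 2) := by
      rw [← Real.mul_rpow (by positivity) (by positivity)]; congr 1; ring
    rw [h3, ← mul_assoc, ← Real.rpow_add (by norm_num)]
    have : (N : ℝ) / 2 + -(N : ℝ) / 2 = 0 := by ring
    rw [this, Real.rpow_zero, one_mul]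
  have e3 : Real.exp (-‖z‖ ^ 2 / (4 * t)) =
      Real.exp (-(‖z‖ ^ 2 / (8 * t))) * Real.exp (-‖z‖ ^ 2 / (4 * (2 * t))) := by
    rw [← Real.exp_add]; congr 1; field_simp; ring
  have e4 : (1 + ‖z‖ ^ 2) * Real.exp (-(‖z‖ ^ 2 / (8 * t))) ≤ 1 + 8 * t := by
    have h5 : ‖z‖ ^ 2 / (8 * t) + 1 ≤ Real.exp (‖z‖ ^ 2 / (8 * t)) := Real.add_one_le_exp _
    have h6 : ‖z‖ ^ 2 = 8 * t * (‖z‖ ^ 2 / (8 * t)) := by field_simp
    have h7 : 0 ≤ ‖z‖ ^ 2 / (8 * t) := by positivity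
    have h8 : 1 + ‖z‖ ^ 2 ≤ (1 + 8 * t) * Real.exp (‖z‖ ^ 2 / (8 * t)) := by
      nlinarith [Real.exp_pos (‖z‖ ^ 2 / (8 * t))]
    have h9 : Real.exp (‖z‖ ^ 2 / (8 * t)) * Real.exp (-(‖z‖ ^ 2 / (8 * t))) = 1 := by
      rw [← Real.exp_add]; simp
    calc _ ≤ (1 + 8 * t) * Real.exp (‖z‖ ^ 2 / (8 * t)) * Real.exp (-(‖z‖ ^ 2 / (8 * t))) :=
          mul_le_mul_of_nonneg_right h8 (Real.exp_pos _).le
      _ = _ := by rw [mul_assoc, h9, mul_one]
  rw [e2, e3]
  calc _ = (2 : ℝ) ^ ((N : ℝ) / 2) * (4 * Real.pi * (2 * t)) ^ (-(N : ℝ) / 2) *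
        Real.exp (-‖z‖ ^ 2 / (4 * (2 * t))) *
        ((1 + ‖z‖ ^ 2) * Real.exp (-(‖z‖ ^ 2 / (8 * t)))) := by ring
    _ ≤ (2 : ℝ) ^ ((N : ℝ) / 2) * (4 * Real.pi * (2 * t)) ^ (-(N : ℝ) / 2) *
        Real.exp (-‖z‖ ^ 2 / (4 * (2 * t))) * (1 + 8 * t) :=
        mul_le_mul_of_nonneg_left e4 (by positivity)
    _ = _ := by ring

/-- common bound for the kernel times a quadratic, at nearby points -/
theorem near_dom {ε : ℝ} (hε : 0 < ε) : ∃ C, 0 ≤ C ∧ ∀ z z' : E N, ‖z' - z‖ ≤ 1 →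
    hk ε z' * (1 + ‖z'‖ ^ 2) ≤ C * hk (4 * ε) z := by
  refine ⟨(2 : ℝ) ^ ((N : ℝ) / 2) * (1 + 8 * ε) *
    ((2 : ℝ) ^ ((Module.finrank ℝ (E N) : ℝ) / 2) * Real.exp (1 / (4 * (2 * ε)))),
    by positivity, fun z z' h => ?_⟩
  have h1 := hk_dom hε z'
  have h2 := hk_near (t := 2 * ε) (by linarith) h
  rw [show 2 * (2 * ε) = 4 * ε by ring] at h2
  calc _ ≤ _ := h1
    _ ≤ (2 : ℝ) ^ ((N : ℝ) / 2) * (1 + 8 * ε) *
      (((2 : ℝ) ^ ((Module.finrank ℝ (E N) : ℝ) / 2) * Real.exp (1 / (4 * (2 * ε)))) *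
        hk (4 * ε) z) := mul_le_mul_of_nonneg_left h2 (by positivity)
    _ = _ := by ring

/-! ### the smoothed function along a line -/

/-- the second derivative of `P ε f` along `e` -/
noncomputable def D2 (ε : ℝ) (f : E N → ℝ) (e x : E N) : ℝ :=
  ∫ y, hk ε (x - y) * (inner ℝ (x - y) e ^ 2 / (4 * ε ^ 2) - 1 / (2 * ε)) * f y

/-- the first derivative of `P ε f` along `e` -/
noncomputable def D1 (ε : ℝ) (f : E N → ℝ) (e x : E N) (t : ℝ) : ℝ :=
  ∫ y, hk ε (x + t • e - y) * (-(inner ℝ (x + t • e - y) e / (2 * ε))) * f y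

theorem hasDerivAt_hkl {ε : ℝ} (hε : 0 < ε) (e x y : E N) (t : ℝ) :
    HasDerivAt (fun t : ℝ => hk ε (x + t • e - y))
      (hk ε (x + t • e - y) * (-(inner ℝ (x + t • e - y) e / (2 * ε)))) t := by
  have h1 : HasDerivAt (fun t : ℝ => x + t • e - y) e t := by
    have := (((hasDerivAt_id t).smul_const e).const_add x).sub_const y
    simpa using this
  have h2 := (hasFDerivAt_hk hε (x + t • e - y)).comp_hasDerivAt t h1
  refine h2.congr_deriv ?_
  simp only [smul_apply, innerSL_apply_apply, smul_eq_mul]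
  ring

theorem hasDerivAt_inl {e : E N} (he : ‖e‖ = 1) (x y : E N) (t : ℝ) :
    HasDerivAt (fun t : ℝ => inner ℝ (x + t • e - y) e) 1 t := by
  have h1 : (fun t : ℝ => inner ℝ (x + t • e - y) e) = fun t : ℝ => inner ℝ (x - y) e + t := by
    ext s
    rw [show x + s • e - y = (x - y) + s • e by abel, inner_add_left, real_inner_smul_left,
      real_inner_self_eq_norm_sq, he]
    ring
  rw [h1]
  exact (hasDerivAt_id t).const_add _

theorem line_deriv1 {ε M : ℝ} (hε : 0 < ε) {e : E N} (he : ‖e‖ = 1) {f : E N → ℝ}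
    (hf : AEStronglyMeasurable f volume) (hM : ∀ y, |f y| ≤ M) (x : E N) {t : ℝ} (ht : |t| < 1) :
    HasDerivAt (fun t : ℝ => P ε f (x + t • e)) (D1 ε f e x t) t := by
  obtain ⟨C, hC, hb⟩ := near_dom (N := N) hε
  have hM0 : 0 ≤ M := (abs_nonneg _).trans (hM 0)
  refine (hasDerivAt_integral_of_dominated_loc_of_deriv_le (μ := volume)
    (F := fun (t : ℝ) y => hk ε (x + t • e - y) * f y)
    (F' := fun (t : ℝ) y => hk ε (x + t • e - y) * (-(inner ℝ (x + t • e - y) e / (2 * ε))) * f y)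
    (x₀ := t) (s := Ioo (-1) 1) (bound := fun y => C / (2 * ε) * M * hk (4 * ε) (x - y))
    (Ioo_mem_nhds (abs_lt.1 ht).1 (abs_lt.1 ht).2) ?_ ?_ ?_ ?_ ?_ ?_).2
  · refine Eventually.of_forall fun s => ?_
    exact ((continuous_hk ε).comp (by fun_prop :
      Continuous fun y : E N => x + s • e - y)).aestronglyMeasurable.mul hf
  · exact integrable_hk_mul hε hf hM (x + t • e)
  · refine AEStronglyMeasurable.mul ?_ hf
    refine (Continuous.mul ((continuous_hk ε).comp (by fun_prop :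
      Continuous fun y : E N => x + t • e - y)) ?_).aestronglyMeasurable
    fun_prop
  · refine Eventually.of_forall fun y s hs => ?_
    have h1 := hb (x - y) (x + s • e - y) (by
      rw [show x + s • e - y - (x - y) = s • e by abel, norm_smul, he, mul_one, Real.norm_eq_abs]
      exact (abs_lt.2 hs).le)
    have h2 : |inner ℝ (x + s • e - y) e| ≤ 1 + ‖x + s • e - y‖ ^ 2 := by
      have h3 := abs_real_inner_le_norm (x + s • e - y) e
      rw [he, mul_one] at h3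
      nlinarith [sq_nonneg (‖x + s • e - y‖ - 1), norm_nonneg (x + s • e - y)]
    have h4 : 0 ≤ hk ε (x + s • e - y) := (hk_pos hε _).le
    have h5 : 0 ≤ hk (4 * ε) (x - y) := (hk_pos (by linarith) _).le
    rw [Real.norm_eq_abs, abs_mul, abs_mul, abs_neg, abs_div, abs_of_nonneg h4,
      abs_of_pos (by linarith : 0 < 2 * ε)]
    calc _ = hk ε (x + s • e - y) * |inner ℝ (x + s • e - y) e| * (1 / (2 * ε)) * |f y| := by ring
      _ ≤ hk ε (x + s • e - y) * (1 + ‖x + s • e - y‖ ^ 2) * (1 / (2 * ε)) * M := by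
          gcongr
          exact hM y
      _ ≤ (C * hk (4 * ε) (x - y)) * (1 / (2 * ε)) * M := by gcongr
      _ = _ := by ring
  · exact (integrable_hk_sub (by linarith) x).const_mul _
  · refine Eventually.of_forall fun y s _ => ?_
    exact (hasDerivAt_hkl hε e x y s).mul_const (f y)

theorem line_deriv2 {ε M : ℝ} (hε : 0 < ε) {e : E N} (he : ‖e‖ = 1) {f : E N → ℝ}
    (hf : AEStronglyMeasurable f volume) (hM : ∀ y, |f y| ≤ M) (x : E N) :
    Integrable (fun y => hk ε (x - y) *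
      (inner ℝ (x - y) e ^ 2 / (4 * ε ^ 2) - 1 / (2 * ε)) * f y) ∧
    HasDerivAt (D1 ε f e x) (D2 ε f e x) 0 := by
  obtain ⟨C, hC, hb⟩ := near_dom (N := N) hε
  have hM0 : 0 ≤ M := (abs_nonneg _).trans (hM 0)
  set C' : ℝ := C * (1 / (4 * ε ^ 2) + 1 / (2 * ε)) with hC'
  have key := (hasDerivAt_integral_of_dominated_loc_of_deriv_le (μ := volume)
    (F := fun (t : ℝ) y => hk ε (x + t • e - y) * (-(inner ℝ (x + t • e - y) e / (2 * ε))) * f y)
    (F' := fun (t : ℝ) y => hk ε (x + t • e - y) *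
      (inner ℝ (x + t • e - y) e ^ 2 / (4 * ε ^ 2) - 1 / (2 * ε)) * f y)
    (x₀ := (0 : ℝ)) (s := Ioo (-1) 1) (bound := fun y => C' * M * hk (4 * ε) (x - y))
    (Ioo_mem_nhds (by norm_num) (by norm_num)) ?_ ?_ ?_ ?_ ?_ ?_)
  · simp only [zero_smul, add_zero] at key
    exact key
  · refine Eventually.of_forall fun s => ?_
    refine AEStronglyMeasurable.mul ?_ hf
    refine (Continuous.mul ((continuous_hk ε).comp (by fun_prop :
      Continuous fun y : E N => x + s • e - y)) ?_).aestronglyMeasurable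
    fun_prop
  · have hm : AEStronglyMeasurable (fun y => hk ε (x + (0 : ℝ) • e - y) *
        (-(inner ℝ (x + (0 : ℝ) • e - y) e / (2 * ε))) * f y) volume := by
      refine AEStronglyMeasurable.mul ?_ hf
      refine (Continuous.mul ((continuous_hk ε).comp (by fun_prop :
        Continuous fun y : E N => x + (0 : ℝ) • e - y)) ?_).aestronglyMeasurable
      fun_prop
    refine Integrable.mono' ((integrable_hk_sub (V := E N) (t := 4 * ε) (by linarith)
      x).const_mul (C / (2 * ε) * M)) hm ?_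
    refine Eventually.of_forall fun y => ?_
    have h1 := hb (x - y) (x + (0 : ℝ) • e - y) (by simp)
    have h2 : |inner ℝ (x + (0 : ℝ) • e - y) e| ≤ 1 + ‖x + (0 : ℝ) • e - y‖ ^ 2 := by
      have h3 := abs_real_inner_le_norm (x + (0 : ℝ) • e - y) e
      rw [he, mul_one] at h3
      nlinarith [sq_nonneg (‖x + (0 : ℝ) • e - y‖ - 1), norm_nonneg (x + (0 : ℝ) • e - y)]
    have h4 : 0 ≤ hk ε (x + (0 : ℝ) • e - y) := (hk_pos hε _).le
    have h5 : 0 ≤ hk (4 * ε) (x - y) := (hk_pos (by linarith) _).le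
    rw [Real.norm_eq_abs, abs_mul, abs_mul, abs_neg, abs_div, abs_of_nonneg h4,
      abs_of_pos (by linarith : 0 < 2 * ε)]
    calc _ = hk ε (x + (0 : ℝ) • e - y) * |inner ℝ (x + (0 : ℝ) • e - y) e| *
          (1 / (2 * ε)) * |f y| := by ring
      _ ≤ hk ε (x + (0 : ℝ) • e - y) * (1 + ‖x + (0 : ℝ) • e - y‖ ^ 2) * (1 / (2 * ε)) * M := by
          gcongr
          exact hM y
      _ ≤ (C * hk (4 * ε) (x - y)) * (1 / (2 * ε)) * M := by gcongr
      _ = _ := by ring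
  · refine AEStronglyMeasurable.mul ?_ hf
    refine (Continuous.mul ((continuous_hk ε).comp (by fun_prop :
      Continuous fun y : E N => x + (0 : ℝ) • e - y)) ?_).aestronglyMeasurable
    fun_prop
  · refine Eventually.of_forall fun y s hs => ?_
    have h1 := hb (x - y) (x + s • e - y) (by
      rw [show x + s • e - y - (x - y) = s • e by abel, norm_smul, he, mul_one, Real.norm_eq_abs]
      exact (abs_lt.2 hs).le)
    have h2 : |inner ℝ (x + s • e - y) e ^ 2 / (4 * ε ^ 2) - 1 / (2 * ε)| ≤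
        (1 + ‖x + s • e - y‖ ^ 2) * (1 / (4 * ε ^ 2) + 1 / (2 * ε)) := by
      have h3 := abs_real_inner_le_norm (x + s • e - y) e
      rw [he, mul_one] at h3
      have h6 : inner ℝ (x + s • e - y) e ^ 2 ≤ ‖x + s • e - y‖ ^ 2 := by
        rw [← sq_abs]
        exact pow_le_pow_left₀ (abs_nonneg _) h3 2
      have h7 : 0 ≤ inner ℝ (x + s • e - y) e ^ 2 / (4 * ε ^ 2) := by positivity
      have h8 : inner ℝ (x + s • e - y) e ^ 2 / (4 * ε ^ 2) ≤
          ‖x + s • e - y‖ ^ 2 * (1 / (4 * ε ^ 2)) := by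
        rw [mul_one_div]
        gcongr
      have h9 : 0 < 1 / (2 * ε) := by positivity
      have h10 : 0 < 1 / (4 * ε ^ 2) := by positivity
      rw [abs_le]
      constructor
      · nlinarith [mul_nonneg (sq_nonneg ‖x + s • e - y‖) h10.le,
          mul_nonneg (sq_nonneg ‖x + s • e - y‖) h9.le]
      · nlinarith [mul_nonneg (sq_nonneg ‖x + s • e - y‖) h10.le,
          mul_nonneg (sq_nonneg ‖x + s • e - y‖) h9.le]
    have h4 : 0 ≤ hk ε (x + s • e - y) := (hk_pos hε _).le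
    have h5 : 0 ≤ hk (4 * ε) (x - y) := (hk_pos (by linarith) _).le
    rw [Real.norm_eq_abs, abs_mul, abs_mul, abs_of_nonneg h4]
    calc _ ≤ hk ε (x + s • e - y) * ((1 + ‖x + s • e - y‖ ^ 2) *
          (1 / (4 * ε ^ 2) + 1 / (2 * ε))) * M := by
          gcongr
          exact hM y
      _ = (hk ε (x + s • e - y) * (1 + ‖x + s • e - y‖ ^ 2)) *
          ((1 / (4 * ε ^ 2) + 1 / (2 * ε)) * M) := by ring
      _ ≤ (C * hk (4 * ε) (x - y)) * ((1 / (4 * ε ^ 2) + 1 / (2 * ε)) * M) := by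
          gcongr
      _ = _ := by rw [hC']; ring
  · exact (integrable_hk_sub (by linarith) x).const_mul _
  · refine Eventually.of_forall fun y s _ => ?_
    have h1 := ((hasDerivAt_hkl hε e x y s).mul
      ((hasDerivAt_inl he x y s).div_const (2 * ε)).neg).mul_const (f y)
    refine h1.congr_deriv ?_
    simp only [Pi.neg_apply]
    field_simp
    ring

/-! ### the maximum principle in space -/

theorem second_test {φ p : ℝ → ℝ} {q : ℝ} (h1 : ∀ᶠ t in 𝓝 (0 : ℝ), HasDerivAt φ (p t) t)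
    (h2 : HasDerivAt p q 0) (hm : IsLocalMin φ 0) : 0 ≤ q := by
  by_contra hneg
  push Not at hneg
  have e1 : deriv φ =ᶠ[𝓝 0] p := by
    filter_upwards [h1] with t ht
    exact ht.deriv
  have e2 : deriv (deriv φ) 0 = q := by
    rw [e1.deriv_eq]
    exact h2.deriv
  have hd0 : deriv φ 0 = 0 := hm.deriv_eq_zero
  have hc : ContinuousAt φ 0 := h1.self_of_nhds.continuousAt
  have hmax : IsLocalMax φ 0 := isLocalMax_of_deriv_deriv_neg (by rw [e2]; exact hneg) hd0 hc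
  have hconst : φ =ᶠ[𝓝 0] fun _ => φ 0 := by
    filter_upwards [hm, hmax] with t h1 h2
    exact le_antisymm h2 h1
  have h5 : deriv φ =ᶠ[𝓝 0] fun _ => 0 := by
    filter_upwards [hconst.eventuallyEq_nhds] with t ht
    rw [ht.deriv_eq]; simp
  rw [← e2, h5.deriv_eq] at hneg
  simp at hneg

/-- the Laplacian of `P ε f` -/
noncomputable def DD (ε : ℝ) (f : E N → ℝ) (x : E N) : ℝ :=
  ∫ y, hk ε (x - y) * (‖x - y‖ ^ 2 / (4 * ε ^ 2) - N / (2 * ε)) * f y

theorem space {ε M : ℝ} (hε : 0 < ε) {f : E N → ℝ} (hf : AEStronglyMeasurable f volume)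
    (hM : ∀ y, |f y| ≤ M) {B : E N → ℝ} {x : E N} (hB : ContDiffAt ℝ 2 B x)
    (hm : IsLocalMin (fun y => B y - P ε f y) x) : DD ε f x ≤ Laplacian.laplacian B x := by
  rw [Pool.Agent.H90.RD.lap_eq_sum]
  have h1 : DD ε f x = ∑ i, D2 ε f (EuclideanSpace.basisFun (Fin N) ℝ i) x := by
    unfold D2 DD
    rw [← integral_finsetSum _ fun i _ => (line_deriv2 hε (by simp) hf hM x).1]
    congr 1
    ext y
    rw [← Finset.sum_mul, ← Finset.mul_sum, Finset.sum_sub_distrib, ← Finset.sum_div,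
      Pool.Agent.H90.RD.sum_inner_sq, Finset.sum_const, Finset.card_univ, Fintype.card_fin,
      nsmul_eq_mul, mul_one_div]
  rw [h1]
  refine Finset.sum_le_sum fun i _ => ?_
  set e : E N := EuclideanSpace.basisFun (Fin N) ℝ i with hedef
  have he : ‖e‖ = 1 := by simp [hedef]
  have h2 := second_test (φ := fun t : ℝ => B (x + t • e) - P ε f (x + t • e))
    (p := fun t : ℝ => fderiv ℝ B (x + t • e) e - D1 ε f e x t)
    (q := fderiv ℝ (fderiv ℝ B) x e e - D2 ε f e x) ?_ ?_ ?_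
  · linarith
  · have h3 : ∀ᶠ t : ℝ in 𝓝 0, |t| < 1 := by
      filter_upwards [Ioo_mem_nhds (show (-1 : ℝ) < 0 by norm_num) (show (0 : ℝ) < 1 by norm_num)]
        with t ht
      exact abs_lt.2 ht
    filter_upwards [Pool.Agent.H90.RD.eventually_line hB e, h3] with t ht h4
    exact (Pool.Agent.H90.RD.hasDerivAt_line1 ht).sub (line_deriv1 hε he hf hM x h4)
  · exact (Pool.Agent.H90.RD.hasDerivAt_line2 hB e).sub (line_deriv2 hε he hf hM x).2
  · have h3 : Tendsto (fun t : ℝ => x + t • e) (𝓝 0) (𝓝 x) := by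
      have : Continuous fun t : ℝ => x + t • e := by fun_prop
      have h4 := this.tendsto 0
      simpa using h4
    have h4 := h3.eventually hm
    filter_upwards [h4] with t ht
    simpa using ht

/-! ### the derivative in time -/

theorem hk_dt {t : ℝ} (ht : 0 < t) (z : E N) :
    HasDerivAt (fun s => hk s z) (hk t z * (‖z‖ ^ 2 / (4 * t ^ 2) - N / (2 * t))) t := by
  have h := Pool.Agent.H54.RD.hke N t ht z
  rw [← h.2.2]
  exact h.2.1

theorem dq_bound {ε : ℝ} (hε : 0 < ε) : ∃ C, 0 ≤ C ∧ ∀ h, 0 < h → h ≤ ε → ∀ z : E N,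
    |(hk (ε + h) z - hk ε z) / h| ≤ C * hk (4 * ε) z := by
  refine ⟨(1 / (4 * ε ^ 2) + N / (2 * ε)) * ((2 : ℝ) ^ ((N : ℝ) / 2) *
    ((2 : ℝ) ^ ((N : ℝ) / 2) * (1 + 8 * (2 * ε)))), by positivity, fun h h0 h1 z => ?_⟩
  obtain ⟨c, hc, hc2⟩ := exists_hasDerivAt_eq_slope (fun s => hk s z)
    (fun s => hk s z * (‖z‖ ^ 2 / (4 * s ^ 2) - N / (2 * s))) (a := ε) (b := ε + h) (by linarith)
    (fun s hs => (hk_dt (by linarith [hs.1]) z).continuousAt.continuousWithinAt)
    (fun s hs => hk_dt (by linarith [hs.1]) z)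
  rw [add_sub_cancel_left] at hc2
  rw [← hc2]
  have hc0 : 0 < c := by linarith [hc.1]
  have h2 : 0 ≤ hk c z := (hk_pos hc0 _).le
  have h3 : |‖z‖ ^ 2 / (4 * c ^ 2) - N / (2 * c)| ≤
      (1 + ‖z‖ ^ 2) * (1 / (4 * ε ^ 2) + N / (2 * ε)) := by
    have hN : (0 : ℝ) ≤ N := Nat.cast_nonneg N
    have a1 : ‖z‖ ^ 2 / (4 * c ^ 2) ≤ ‖z‖ ^ 2 * (1 / (4 * ε ^ 2)) := by
      rw [mul_one_div]
      have := hc.1.le
      gcongr
    have a2 : (N : ℝ) / (2 * c) ≤ N / (2 * ε) := by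
      have := hc.1.le
      gcongr
    have a3 : 0 ≤ ‖z‖ ^ 2 / (4 * c ^ 2) := by positivity
    have a4 : 0 ≤ (N : ℝ) / (2 * c) := by positivity
    have a5 : 0 < 1 / (4 * ε ^ 2) := by positivity
    have a6 : 0 ≤ (N : ℝ) / (2 * ε) := by positivity
    rw [abs_le]
    constructor
    · nlinarith [mul_nonneg (sq_nonneg ‖z‖) a5.le, mul_nonneg (sq_nonneg ‖z‖) a6]
    · nlinarith [mul_nonneg (sq_nonneg ‖z‖) a5.le, mul_nonneg (sq_nonneg ‖z‖) a6]
  have h4 := hk_scale (N := N) hε hc.1.le (by linarith [hc.2]) z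
  have h5 := hk_dom (N := N) (t := 2 * ε) (by linarith) z
  rw [show 2 * (2 * ε) = 4 * ε by ring] at h5
  rw [abs_mul, abs_of_nonneg h2]
  calc _ ≤ ((2 : ℝ) ^ ((N : ℝ) / 2) * hk (2 * ε) z) *
        ((1 + ‖z‖ ^ 2) * (1 / (4 * ε ^ 2) + N / (2 * ε))) :=
        mul_le_mul h4 h3 (abs_nonneg _) (mul_nonneg (by positivity) (hk_pos (by linarith) _).le)
    _ = (1 / (4 * ε ^ 2) + N / (2 * ε)) * ((2 : ℝ) ^ ((N : ℝ) / 2) *
        (hk (2 * ε) z * (1 + ‖z‖ ^ 2))) := by ring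
    _ ≤ (1 / (4 * ε ^ 2) + N / (2 * ε)) * ((2 : ℝ) ^ ((N : ℝ) / 2) *
        ((2 : ℝ) ^ ((N : ℝ) / 2) * (1 + 8 * (2 * ε)) * hk (4 * ε) z)) := by
        have : 0 ≤ (1 / (4 * ε ^ 2) + N / (2 * ε)) := by positivity
        gcongr
    _ = _ := by ring

theorem time_lim {ε M : ℝ} (hε : 0 < ε) {F : ℝ → E N → ℝ} {f : E N → ℝ} (x : E N)
    (hF : ∀ᶠ h in 𝓝[>] (0 : ℝ), AEStronglyMeasurable (F h) volume)
    (hM : ∀ᶠ h in 𝓝[>] (0 : ℝ), ∀ y, |F h y| ≤ M)
    (hl : ∀ y, Tendsto (fun h => F h y) (𝓝[>] 0) (𝓝 (f y))) :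
    Tendsto (fun h => (P (ε + h) (F h) x - P ε (F h) x) / h) (𝓝[>] 0) (𝓝 (DD ε f x)) := by
  obtain ⟨C, hC, hb⟩ := dq_bound (N := N) hε
  have hpos : ∀ᶠ h : ℝ in 𝓝[>] 0, 0 < h ∧ h ≤ ε := by
    filter_upwards [Ioc_mem_nhdsGT hε] with h hh
    exact hh
  have h1 : Tendsto (fun h => ∫ y, (hk (ε + h) (x - y) - hk ε (x - y)) / h * F h y)
      (𝓝[>] 0) (𝓝 (DD ε f x)) := by
    unfold DD
    refine tendsto_integral_filter_of_dominated_convergence
      (fun y => C * hk (4 * ε) (x - y) * M) ?_ ?_ ?_ ?_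
    · filter_upwards [hF] with h hh
      refine AEStronglyMeasurable.mul (Continuous.aestronglyMeasurable ?_) hh
      exact (((continuous_hk (ε + h)).comp (by fun_prop : Continuous fun y : E N => x - y)).sub
        ((continuous_hk ε).comp (by fun_prop : Continuous fun y : E N => x - y))).div_const h
    · filter_upwards [hM, hpos] with h hh hp
      refine Eventually.of_forall fun y => ?_
      rw [Real.norm_eq_abs, abs_mul]
      exact mul_le_mul (hb h hp.1 hp.2 _) (hh y) (abs_nonneg _)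
        (mul_nonneg hC (hk_pos (by linarith) _).le)
    · exact ((integrable_hk_sub (by linarith) x).const_mul C).mul_const M
    · refine Eventually.of_forall fun y => ?_
      refine Tendsto.mul ?_ (hl y)
      have h2 := (hasDerivAt_iff_tendsto_slope_zero.1 (hk_dt hε (x - y))).mono_left
        (nhdsWithin_mono (0 : ℝ) (fun s (hs : s ∈ Ioi (0 : ℝ)) => (ne_of_gt hs : s ≠ 0)))
      refine h2.congr fun s => ?_
      rw [smul_eq_mul]
      ring
  refine h1.congr' ?_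
  filter_upwards [hF, hM, hpos] with h a1 a2 a3
  unfold P
  rw [← integral_sub (integrable_hk_mul (by linarith [a3.1]) a1 a2 x)
    (integrable_hk_mul hε a1 a2 x), ← integral_div]
  congr 1
  ext y
  ring

theorem P_lim {ε M : ℝ} (hε : 0 < ε) {F : ℝ → E N → ℝ} {f : E N → ℝ} (x : E N)
    (hF : ∀ᶠ h in 𝓝[>] (0 : ℝ), AEStronglyMeasurable (F h) volume)
    (hM : ∀ᶠ h in 𝓝[>] (0 : ℝ), ∀ y, |F h y| ≤ M)
    (hl : ∀ y, Tendsto (fun h => F h y) (𝓝[>] 0) (𝓝 (f y))) :
    Tendsto (fun h => P ε (F h) x) (𝓝[>] 0) (𝓝 (P ε f x)) := by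
  unfold P
  refine tendsto_integral_filter_of_dominated_convergence
    (fun y => hk ε (x - y) * M) ?_ ?_ ?_ ?_
  · filter_upwards [hF] with h hh
    exact AEStronglyMeasurable.mul ((continuous_hk ε).comp
      (by fun_prop : Continuous fun y : E N => x - y)).aestronglyMeasurable hh
  · filter_upwards [hM] with h hh
    refine Eventually.of_forall fun y => ?_
    rw [Real.norm_eq_abs, abs_mul, abs_of_pos (hk_pos hε _)]
    exact mul_le_mul_of_nonneg_left (hh y) (hk_pos hε _).le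
  · exact (integrable_hk_sub hε x).mul_const M
  · exact Eventually.of_forall fun y => (hl y).const_mul _

/-! ### approximation -/

theorem papp {A s η L M : ℝ} (hs : 0 < s)
    (hm : Integrable (fun z : E N => hk s z * ‖z‖) ∧ ∫ z : E N, hk s z * ‖z‖ ≤ A * √s)
    {f : E N → ℝ} (hf : AEStronglyMeasurable f volume) (hM : ∀ y, |f y| ≤ M) (hL : 0 ≤ L)
    (x : E N) (c : ℝ) (h : ∀ y, |f y - c| ≤ η + L * ‖y - x‖) :
    |P s f x - c| ≤ η + L * (A * √s) := by
  have hi : Integrable (fun y : E N => hk s (x - y) * ‖y - x‖) := by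
    have h1 := hm.1.comp_sub_left x
    refine h1.congr (Eventually.of_forall fun y => ?_)
    simp only
    rw [norm_sub_rev]
  have hi2 : ∫ y : E N, hk s (x - y) * ‖y - x‖ = ∫ z : E N, hk s z * ‖z‖ := by
    rw [← integral_sub_left_eq_self (fun z : E N => hk s z * ‖z‖) volume x]
    congr 1
    ext y
    rw [norm_sub_rev]
  have e1 : P s f x - c = ∫ y, hk s (x - y) * (f y - c) := by
    have h2 : P s f x - c = P s f x - P s (fun _ => c) x := by rw [P_const hs c x]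
    rw [h2]
    unfold P
    rw [← integral_sub (integrable_hk_mul hs hf hM x) ((integrable_hk_sub hs x).mul_const c)]
    congr 1
    ext y
    ring
  rw [e1, ← Real.norm_eq_abs]
  refine (norm_integral_le_of_norm_le (g := fun y => η * hk s (x - y) +
    L * (hk s (x - y) * ‖y - x‖)) (((integrable_hk_sub hs x).const_mul η).add
      (hi.const_mul L)) (Eventually.of_forall fun y => ?_)).trans ?_
  · rw [Real.norm_eq_abs, abs_mul, abs_of_pos (hk_pos hs _)]
    have := mul_le_mul_of_nonneg_left (h y) (hk_pos hs (x - y)).le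
    linarith
  · rw [integral_add ((integrable_hk_sub hs x).const_mul η) (hi.const_mul L),
      integral_const_mul, integral_const_mul, integral_hk_sub hs x, hi2]
    have := mul_le_mul_of_nonneg_left hm.2 hL
    linarith

theorem ucont {a b M R η : ℝ} {H : ℝ → E N → ℝ} (hM0 : 0 ≤ M)
    (hc : ContinuousOn (fun p : ℝ × E N => H p.1 p.2) (Icc a b ×ˢ univ))
    (hM : ∀ t ∈ Icc a b, ∀ y, |H t y| ≤ M) (hη : 0 < η) :
    ∃ L, 0 ≤ L ∧ ∀ t ∈ Icc a b, ∀ x ∈ closedBall (0 : E N) R, ∀ y,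
      |H t y - H t x| ≤ η + L * ‖y - x‖ := by
  have hK : IsCompact (Icc a b ×ˢ closedBall (0 : E N) (R + 1)) :=
    isCompact_Icc.prod (isCompact_closedBall _ _)
  have hu := hK.uniformContinuousOn_of_continuous (hc.mono (prod_mono le_rfl (subset_univ _)))
  obtain ⟨δ, hδ, hd⟩ := Metric.uniformContinuousOn_iff.1 hu η hη
  set δ' := min δ 1 with hδ'
  have hδ0 : 0 < δ' := by positivity
  refine ⟨2 * M / δ', by positivity, fun t ht x hx y => ?_⟩
  by_cases hxy : ‖y - x‖ < δ'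
  · have hx' := mem_closedBall_zero_iff.1 hx
    have h1 := hd (t, y) ⟨ht, by
      rw [mem_closedBall_zero_iff]
      have h2 : ‖y‖ ≤ ‖y - x‖ + ‖x‖ := by
        have := norm_add_le (y - x) x
        rwa [sub_add_cancel] at this
      have h3 : δ' ≤ 1 := min_le_right _ _
      linarith⟩ (t, x) ⟨ht, by rw [mem_closedBall_zero_iff]; linarith⟩ (by
        rw [Prod.dist_eq, dist_self, dist_eq_norm, max_lt_iff]
        exact ⟨hδ, hxy.trans_le (min_le_left _ _)⟩)
    rw [Real.dist_eq] at h1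
    have h2 : 0 ≤ 2 * M / δ' * ‖y - x‖ := by positivity
    simp only at h1
    linarith
  · push Not at hxy
    have h1 : 2 * M ≤ 2 * M / δ' * ‖y - x‖ := by
      calc 2 * M = 2 * M / δ' * δ' := by field_simp
        _ ≤ _ := mul_le_mul_of_nonneg_left hxy (by positivity)
    have h2 := hM t ht y
    have h3 := hM t ht x
    have h4 : |H t y - H t x| ≤ |H t y| + |H t x| := abs_sub _ _
    linarith

theorem slice {a b : ℝ} {H : ℝ → E N → ℝ}
    (hc : ContinuousOn (fun p : ℝ × E N => H p.1 p.2) (Icc a b ×ˢ univ)) {t : ℝ}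
    (ht : t ∈ Icc a b) : Continuous (H t) := by
  have h1 : ContinuousOn (fun y : E N => H t y) univ :=
    hc.comp (f := fun y : E N => (t, y)) (by fun_prop) (fun y _ => ⟨ht, mem_univ _⟩)
  exact continuousOn_univ.1 h1

theorem unif {a b M R η A : ℝ} {H : ℝ → E N → ℝ} (hM0 : 0 ≤ M)
    (hm : ∀ t > 0, Integrable (fun z : E N => hk t z * ‖z‖) ∧ ∫ z : E N, hk t z * ‖z‖ ≤ A * √t)
    (hA : 0 ≤ A)
    (hc : ContinuousOn (fun p : ℝ × E N => H p.1 p.2) (Icc a b ×ˢ univ))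
    (hM : ∀ t ∈ Icc a b, ∀ y, |H t y| ≤ M) (hη : 0 < η) :
    ∃ ε0 > 0, ∀ ε, 0 < ε → ε ≤ ε0 → ∀ t ∈ Icc a b, ∀ x ∈ closedBall (0 : E N) R,
      |P ε (H t) x - H t x| ≤ η := by
  obtain ⟨L, hL, hd⟩ := ucont (R := R) hM0 hc hM (half_pos hη)
  refine ⟨(η / (2 * (L * A + 1))) ^ 2, by positivity, fun ε h0 h1 t ht x hx => ?_⟩
  have h2 := papp h0 (hm ε h0) (slice hc ht).aestronglyMeasurable (hM t ht) hL x (H t x)
    (hd t ht x hx)
  refine h2.trans ?_
  have h3 : √ε ≤ η / (2 * (L * A + 1)) := by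
    calc √ε ≤ √((η / (2 * (L * A + 1))) ^ 2) := Real.sqrt_le_sqrt h1
      _ = _ := Real.sqrt_sq (by positivity)
  have h4 : L * (A * √ε) ≤ η / 2 := by
    calc L * (A * √ε) = L * A * √ε := by ring
      _ ≤ (L * A + 1) * (η / (2 * (L * A + 1))) :=
        mul_le_mul (by linarith) h3 (Real.sqrt_nonneg _) (by positivity)
      _ = η / 2 := by field_simp
  linarith

/-! ### the left derivative in time of the smoothed solution -/

/-- data: bounded continuous source `g` and solution `z` of Duhamel's formula on `[a,b]` -/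
structure Dt (a b M : ℝ) (g z : ℝ → E N → ℝ) : Prop where
  M0 : 0 ≤ M
  gc : ContinuousOn (fun p : ℝ × E N => g p.1 p.2) (Icc a b ×ˢ univ)
  gb : ∀ t ∈ Icc a b, ∀ y, |g t y| ≤ M
  zc : ContinuousOn (fun p : ℝ × E N => z p.1 p.2) (Icc a b ×ˢ univ)
  zb : ∀ t ∈ Icc a b, ∀ y, |z t y| ≤ M
  duh : ∀ s t, a ≤ s → s < t → t ≤ b → ∀ x,
    z t x = P (t - s) (z s) x + ∫ r in s..t, P (t - r) (g r) x

theorem back {a b t0 : ℝ} {H : ℝ → E N → ℝ}
    (hc : ContinuousOn (fun p : ℝ × E N => H p.1 p.2) (Icc a b ×ˢ univ)) (h0 : a < t0)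
    (h1 : t0 ≤ b) (y : E N) : Tendsto (fun h => H (t0 - h) y) (𝓝[>] 0) (𝓝 (H t0 y)) := by
  have h2 : ContinuousOn (fun h : ℝ => H (t0 - h) y) (Icc 0 (t0 - a)) :=
    hc.comp (f := fun h : ℝ => (t0 - h, y)) (by fun_prop)
      (fun h hh => ⟨⟨by linarith [hh.2], by linarith [hh.1]⟩, mem_univ _⟩)
  have h3 := (h2 0 ⟨le_rfl, by linarith⟩).tendsto
  rw [sub_zero] at h3
  refine h3.mono_left ?_
  rw [nhdsWithin_le_iff]
  exact Icc_mem_nhdsGT (by linarith)

theorem avg {a b M A t0 : ℝ} {g z : ℝ → E N → ℝ} (hD : Dt a b M g z)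
    (hm : ∀ t > 0, Integrable (fun z : E N => hk t z * ‖z‖) ∧ ∫ z : E N, hk t z * ‖z‖ ≤ A * √t)
    (hA : 0 ≤ A) (h0 : a < t0) (h1 : t0 ≤ b) (y : E N) :
    Tendsto (fun h => (∫ r in (t0 - h)..t0, P (t0 - r) (g r) y) / h) (𝓝[>] 0)
      (𝓝 (g t0 y)) := by
  rw [Metric.tendsto_nhds]
  intro η hη
  obtain ⟨ε0, hε0, hu⟩ := unif (R := ‖y‖) hD.M0 hm hA hD.gc hD.gb (η := η / 4) (by linarith)
  have h2 := Metric.tendsto_nhds.1 (back hD.gc h0 h1 y) (η / 4) (by linarith)
  obtain ⟨h3, hh3, hsub⟩ := mem_nhdsGT_iff_exists_Ioo_subset.1 h2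
  have h4 : 0 < min (min ε0 h3) (t0 - a) := by
    have : (0 : ℝ) < h3 := hh3
    have : 0 < t0 - a := by linarith
    positivity
  filter_upwards [Ioo_mem_nhdsGT h4] with h hh
  have b1 : h < ε0 := hh.2.trans_le ((min_le_left _ _).trans (min_le_left _ _))
  have b2 : h < h3 := hh.2.trans_le ((min_le_left _ _).trans (min_le_right _ _))
  have b3 : h < t0 - a := hh.2.trans_le (min_le_right _ _)
  have hh0 := hh.1
  have hint : IntervalIntegrable (fun r => P (t0 - r) (g r) y) volume (t0 - h) t0 := by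
    refine Pool.Agent.H35.RD.ii_duh (M := M) (by linarith) (fun r hr x => ?_) ?_ y
    · exact hD.gb r ⟨by linarith [hr.1], by linarith [hr.2]⟩ x
    · refine hD.gc.mono (prod_mono (fun r hr => ?_) le_rfl)
      exact ⟨by linarith [hr.1], by linarith [hr.2]⟩
  have hpt : ∀ r ∈ Ioo (t0 - h) t0, |P (t0 - r) (g r) y - g t0 y| ≤ η / 2 := by
    intro r hr
    have c1 := hu (t0 - r) (by linarith [hr.2]) (by linarith [hr.1]) r
      ⟨by linarith [hr.1], by linarith [hr.2]⟩ y (by rw [mem_closedBall_zero_iff])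
    have c2 : t0 - r ∈ {x | (fun x => dist (g (t0 - x) y) (g t0 y) < η / 4) x} :=
      hsub ⟨by linarith [hr.2], by linarith [hr.1]⟩
    simp only [mem_ofPred_eq, sub_sub_cancel, Real.dist_eq] at c2
    have c3 : |P (t0 - r) (g r) y - g t0 y| ≤ |P (t0 - r) (g r) y - g r y| +
        |g r y - g t0 y| := abs_sub_le _ _ _
    linarith
  have e1 : (∫ r in (t0 - h)..t0, P (t0 - r) (g r) y) / h - g t0 y =
      (∫ r in (t0 - h)..t0, (P (t0 - r) (g r) y - g t0 y)) / h := by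
    rw [intervalIntegral.integral_sub hint (by simp), intervalIntegral.integral_const,
      sub_sub_cancel, smul_eq_mul]
    field_simp
  rw [Real.dist_eq, e1, abs_div, abs_of_pos hh0, div_lt_iff₀ hh0]
  have e2 : ‖∫ r in (t0 - h)..t0, (P (t0 - r) (g r) y - g t0 y)‖ ≤
      ∫ r in (t0 - h)..t0, η / 2 := by
    refine intervalIntegral.norm_integral_le_of_norm_le (by linarith) ?_ (by simp)
    have e3 : ∀ᵐ r : ℝ, r ≠ t0 := by
      simp [ae_iff]
    filter_upwards [e3] with r hr1 hr2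
    exact hpt r ⟨hr2.1, lt_of_le_of_ne hr2.2 hr1⟩
  rw [intervalIntegral.integral_const, sub_sub_cancel, smul_eq_mul, Real.norm_eq_abs] at e2
  nlinarith

theorem left_deriv {a b M A t0 ε : ℝ} {g z : ℝ → E N → ℝ} (hD : Dt a b M g z)
    (hm : ∀ t > 0, Integrable (fun z : E N => hk t z * ‖z‖) ∧ ∫ z : E N, hk t z * ‖z‖ ≤ A * √t)
    (hA : 0 ≤ A) (h0 : a < t0) (h1 : t0 ≤ b) (hε : 0 < ε) (x : E N) :
    Tendsto (fun h => (P ε (z t0) x - P ε (z (t0 - h)) x) / h) (𝓝[>] 0)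
      (𝓝 (DD ε (z t0) x + P ε (g t0) x)) := by
  have hpos : ∀ᶠ h : ℝ in 𝓝[>] 0, 0 < h ∧ h < t0 - a := by
    filter_upwards [Ioo_mem_nhdsGT (show 0 < t0 - a by linarith)] with h hh
    exact hh
  have hin : ∀ h : ℝ, 0 < h ∧ h < t0 - a → t0 - h ∈ Icc a b := fun h hh =>
    ⟨by linarith [hh.2], by linarith [hh.1]⟩
  have k1 := time_lim (M := M) (F := fun h => z (t0 - h)) (f := z t0) hε x
    (by filter_upwards [hpos] with h hh; exact (slice hD.zc (hin h hh)).aestronglyMeasurable)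
    (by filter_upwards [hpos] with h hh; exact hD.zb _ (hin h hh))
    (fun y => back hD.zc h0 h1 y)
  -- the average of the source
  have eA : ∀ h : ℝ, 0 < h ∧ h < t0 - a → ∀ y,
      (∫ r in (t0 - h)..t0, P (t0 - r) (g r) y) = z t0 y - P h (z (t0 - h)) y := by
    intro h hh y
    have := hD.duh (t0 - h) t0 (by linarith [hh.2]) (by linarith [hh.1]) h1 y
    rw [sub_sub_cancel] at this
    linarith
  have hbA : ∀ h : ℝ, 0 < h ∧ h < t0 - a → ∀ y,
      |(∫ r in (t0 - h)..t0, P (t0 - r) (g r) y) / h| ≤ M := by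
    intro h hh y
    have h2 : ‖∫ r in (t0 - h)..t0, P (t0 - r) (g r) y‖ ≤ ∫ r in (t0 - h)..t0, M := by
      refine intervalIntegral.norm_integral_le_of_norm_le (by linarith [hh.1]) ?_ (by simp)
      have e3 : ∀ᵐ r : ℝ, r ≠ t0 := by simp [ae_iff]
      filter_upwards [e3] with r hr1 hr2
      have hr3 : r < t0 := lt_of_le_of_ne hr2.2 hr1
      rw [Real.norm_eq_abs]
      exact abs_P_le (by linarith) (hD.gb r ⟨by linarith [hr2.1, hh.2], by linarith⟩) y
    rw [intervalIntegral.integral_const, sub_sub_cancel, smul_eq_mul, Real.norm_eq_abs] at h2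
    rw [abs_div, abs_of_pos hh.1, div_le_iff₀ hh.1]
    linarith
  have hmA : ∀ h : ℝ, 0 < h ∧ h < t0 - a → AEStronglyMeasurable
      (fun y => (∫ r in (t0 - h)..t0, P (t0 - r) (g r) y) / h) volume := by
    intro h hh
    have h2 : (fun y => (∫ r in (t0 - h)..t0, P (t0 - r) (g r) y) / h) =
        fun y => (z t0 y - P h (z (t0 - h)) y) / h := by
      ext y
      rw [eA h hh y]
    rw [h2]
    have h3 := (slice hD.zc (hin h hh)).aestronglyMeasurable (μ := volume)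
    have h4 := (slice hD.zc (t := t0) ⟨h0.le, h1⟩).aestronglyMeasurable (μ := volume)
    simp only [div_eq_mul_inv]
    exact AEStronglyMeasurable.mul_const
      (h4.sub (continuous_P hh.1 h3 (hD.zb _ (hin h hh))).aestronglyMeasurable) h⁻¹
  have k2 := P_lim (M := M) (F := fun h y => (∫ r in (t0 - h)..t0, P (t0 - r) (g r) y) / h)
    (f := g t0) hε x (by filter_upwards [hpos] with h hh; exact hmA h hh)
    (by filter_upwards [hpos] with h hh; exact hbA h hh) (fun y => avg hD hm hA h0 h1 y)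
  refine (k1.add k2).congr' ?_
  filter_upwards [hpos] with h hh
  have hz := (slice hD.zc (hin h hh)).aestronglyMeasurable (μ := volume)
  have hzb := hD.zb _ (hin h hh)
  have e1 : P ε (z t0) x = P (ε + h) (z (t0 - h)) x +
      h * P ε (fun y => (∫ r in (t0 - h)..t0, P (t0 - r) (g r) y) / h) x := by
    rw [← P_P hε hh.1 hz hzb x, ← P_const_mul, ← P_add]
    · congr 1
      ext y
      have := eA h hh y
      rw [mul_div_cancel₀ _ (ne_of_gt hh.1), this]
      ring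
    · exact integrable_hk_mul hε (continuous_P hh.1 hz hzb).aestronglyMeasurable
        (abs_P_le hh.1 hzb) x
    · refine integrable_hk_mul hε ((hmA h hh).const_mul h) (C := h * M) (fun y => ?_) x
      rw [abs_mul, abs_of_pos hh.1]
      exact mul_le_mul_of_nonneg_left (hbA h hh y) hh.1.le
  rw [e1]
  have := hh.1
  field_simp
  ring

theorem time_ineq {W b : ℝ → ℝ} {κ w' b' a t0 : ℝ} (h0 : a < t0)
    (hW : Tendsto (fun h => (W t0 - W (t0 - h)) / h) (𝓝[>] 0) (𝓝 w')) (hb : HasDerivAt b b' t0)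
    (hmax : ∀ s ∈ Icc a t0, Real.exp (-(κ * (s - a))) * (W s - b s) ≤
      Real.exp (-(κ * (t0 - a))) * (W t0 - b t0)) : κ * (W t0 - b t0) ≤ w' - b' := by
  have hsub : 𝓝[>] (0 : ℝ) ≤ 𝓝[≠] 0 :=
    nhdsWithin_mono (0 : ℝ) (fun s (hs : s ∈ Ioi (0 : ℝ)) => (ne_of_gt hs : s ≠ 0))
  have e1 : HasDerivAt (fun h : ℝ => b (t0 - h)) (-b') 0 := by
    have h2 : HasDerivAt (fun h : ℝ => t0 - h) (-1) 0 := by
      simpa using (hasDerivAt_id (0 : ℝ)).const_sub t0
    have h3 := HasDerivAt.comp (0 : ℝ) (h₂ := b) (h := fun h : ℝ => t0 - h)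
      (by rw [sub_zero]; exact hb) h2
    refine h3.congr_deriv ?_
    ring
  have e2 : HasDerivAt (fun h : ℝ => Real.exp (-(κ * h))) (-κ) 0 := by
    have h2 : HasDerivAt (fun h : ℝ => -(κ * h)) (-κ) 0 := by
      have := ((hasDerivAt_id (0 : ℝ)).const_mul κ).neg
      refine this.congr_deriv ?_
      ring
    refine h2.exp.congr_deriv ?_
    simp
  have l1 := (hasDerivAt_iff_tendsto_slope_zero.1 e1).mono_left hsub
  have l2 := (hasDerivAt_iff_tendsto_slope_zero.1 e2).mono_left hsub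
  have l3 := (hW.add l1).add (l2.const_mul (W t0 - b t0))
  have l4 : 0 ≤ w' + -b' + (W t0 - b t0) * -κ := by
    refine ge_of_tendsto l3 ?_
    filter_upwards [Ioc_mem_nhdsGT (show 0 < t0 - a by linarith)] with h hh
    have h1 := hmax (t0 - h) ⟨by linarith [hh.2], by linarith [hh.1]⟩
    have h2 : Real.exp (-(κ * (t0 - a))) = Real.exp (-(κ * (t0 - h - a))) *
        Real.exp (-(κ * h)) := by
      rw [← Real.exp_add]; congr 1; ring
    rw [h2, mul_assoc] at h1
    have h3 := le_of_mul_le_mul_left h1 (Real.exp_pos _)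
    have hh0 := hh.1
    simp only [smul_eq_mul, zero_add, sub_zero, mul_zero, neg_zero, Real.exp_zero]
    have h4 : (W t0 - W (t0 - h)) / h + h⁻¹ * (b (t0 - h) - b t0) +
        (W t0 - b t0) * (h⁻¹ * (Real.exp (-(κ * h)) - 1)) =
        (Real.exp (-(κ * h)) * (W t0 - b t0) - (W (t0 - h) - b (t0 - h))) / h := by
      field_simp
      ring
    rw [h4]
    exact div_nonneg (by linarith) hh0.le
  linarith

theorem cont_P {a b M ε : ℝ} {g z : ℝ → E N → ℝ} (hD : Dt a b M g z) (hε : 0 < ε) :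
    ContinuousOn (fun p : ℝ × E N => P ε (z p.1) p.2) (Icc a b ×ˢ univ) := by
  have h1 : (fun p : ℝ × E N => P ε (z p.1) p.2) =
      fun p : ℝ × E N => ∫ y, hk ε y * z p.1 (p.2 - y) := by
    ext p
    exact P_eq_conv _ _ _
  rw [h1]
  refine continuousOn_of_dominated (bound := fun y => hk ε y * M) ?_ ?_ ?_ ?_
  · rintro ⟨t, x⟩ ⟨ht, -⟩
    exact ((continuous_hk ε).mul ((slice hD.zc ht).comp
      (by fun_prop : Continuous fun y : E N => x - y))).aestronglyMeasurable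
  · rintro ⟨t, x⟩ ⟨ht, -⟩
    refine Eventually.of_forall fun y => ?_
    rw [Real.norm_eq_abs, abs_mul, abs_of_pos (hk_pos hε _)]
    exact mul_le_mul_of_nonneg_left (hD.zb t ht _) (hk_pos hε _).le
  · exact (integrable_hk hε).mul_const M
  · refine Eventually.of_forall fun y => ContinuousOn.mul continuousOn_const ?_
    exact hD.zc.comp (f := fun p : ℝ × E N => (p.1, p.2 - y)) (by fun_prop)
      (fun p hp => ⟨hp.1, mem_univ _⟩)

/-- [MPV] comparison of a Duhamel solution with a smooth supersolution -/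
theorem mpv (hGRAD : T_GRAD) : T_MPV := by
  rintro N K a b ρ V F z B hab hV hVc hFc ⟨M2, hF⟩ hz hzc hBc hout h0 hsup
  by_contra hneg
  push Not at hneg
  obtain ⟨t1, ht1, x1, hx1⟩ := hneg
  obtain ⟨A, hA1, -, hm⟩ := hGRAD N
  have hA : 0 ≤ A := by linarith
  obtain ⟨M1, hM1⟩ := hz.bdd
  have hK := hV.K0
  set g : ℝ → E N → ℝ := fun t x => V t x * z t x + F t x with hg
  have hD : Dt a b (|M1| + K * |M1| + |M2|) g z := by
    refine ⟨by positivity, (hVc.mul hzc).add hFc, fun t ht y => ?_, hzc, fun t ht y => ?_, hz.duh⟩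
    · have h1 : |V t y * z t y| ≤ K * |M1| := by
        rw [abs_mul]
        exact mul_le_mul (hV.bdd t y) ((hM1 t ht y).trans (le_abs_self _)) (abs_nonneg _) hK.le
      have h2 : |F t y| ≤ |M2| := (hF t y).trans (le_abs_self _)
      have h3 : |g t y| ≤ |V t y * z t y| + |F t y| := abs_add_le _ _
      have h4 := abs_nonneg M1
      linarith
    · have h1 := (hM1 t ht y).trans (le_abs_self _)
      have h2 : 0 ≤ K * |M1| := by positivity
      have h3 := abs_nonneg M2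
      linarith
  set κ := K + 1 with hκ
  obtain ⟨m1, hm1⟩ : ∃ m1, m1 = Real.exp (-(κ * (t1 - a))) * (z t1 x1 - B t1 x1) := ⟨_, rfl⟩
  have hm0 : 0 < m1 := by
    rw [hm1]
    exact mul_pos (Real.exp_pos _) (by linarith)
  set η := m1 / (4 * (K + 2)) with hη
  have hη0 : 0 < η := by positivity
  have hη1 : (K + 2) * η = m1 / 4 := by rw [hη]; field_simp
  have hKη : 0 < K * η := by positivity
  obtain ⟨ε1, hε1, hu1⟩ := unif (R := ρ) hD.M0 hm hA hD.zc hD.zb hη0
  obtain ⟨ε2, hε2, hu2⟩ := unif (R := ρ) hD.M0 hm hA hD.gc hD.gb hη0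
  obtain ⟨ε, hε, hεa, hεb⟩ : ∃ ε, 0 < ε ∧ ε ≤ ε1 ∧ ε ≤ ε2 :=
    ⟨min ε1 ε2, by positivity, min_le_left _ _, min_le_right _ _⟩
  set Φ : ℝ × E N → ℝ := fun p => Real.exp (-(κ * (p.1 - a))) *
    (P ε (z p.1) p.2 - B p.1 p.2) with hΦ
  have hΦc : ContinuousOn Φ (Icc a b ×ˢ closedBall (0 : E N) ρ) := by
    refine ContinuousOn.mul (Continuous.continuousOn (by fun_prop)) ?_
    exact ((cont_P hD hε).sub hBc).mono (prod_mono le_rfl (subset_univ _))
  have hx1ρ : ‖x1‖ < ρ := by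
    by_contra h
    push Not at h
    exact absurd (hout t1 ht1 x1 h) (not_le.2 hx1)
  have hmem1 : (t1, x1) ∈ Icc a b ×ˢ closedBall (0 : E N) ρ :=
    ⟨ht1, by rw [mem_closedBall_zero_iff]; exact hx1ρ.le⟩
  obtain ⟨⟨t0, x0⟩, hmem, hmax⟩ := (isCompact_Icc.prod (isCompact_closedBall (0 : E N) ρ)
    ).exists_isMaxOn ⟨_, hmem1⟩ hΦc
  have ht0 : t0 ∈ Icc a b := hmem.1
  have hx0 : x0 ∈ closedBall (0 : E N) ρ := hmem.2
  have hexp : ∀ t ∈ Icc a b, Real.exp (-(κ * (t - a))) ≤ 1 := by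
    intro t ht
    rw [Real.exp_le_one_iff]
    have : 0 ≤ κ * (t - a) := mul_nonneg (by linarith) (by linarith [ht.1])
    linarith
  have v1 : 3 / 4 * m1 ≤ Φ (t0, x0) := by
    refine le_trans ?_ (hmax hmem1)
    have c1 := (abs_le.1 (hu1 ε hε hεa t1 ht1 x1 (by
      rw [mem_closedBall_zero_iff]; exact hx1ρ.le))).1
    have c2 := hexp t1 ht1
    have c3 := Real.exp_pos (-(κ * (t1 - a)))
    simp only [hΦ]
    have c4 : Real.exp (-(κ * (t1 - a))) * (z t1 x1 - B t1 x1 - η) ≤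
        Real.exp (-(κ * (t1 - a))) * (P ε (z t1) x1 - B t1 x1) :=
      mul_le_mul_of_nonneg_left (by linarith) c3.le
    have c5 : Real.exp (-(κ * (t1 - a))) * η ≤ 1 * η := mul_le_mul_of_nonneg_right c2 hη0.le
    have c6 : Real.exp (-(κ * (t1 - a))) * (z t1 x1 - B t1 x1 - η) =
        m1 - Real.exp (-(κ * (t1 - a))) * η := by rw [hm1]; ring
    have c7 : η ≤ m1 / 4 := by nlinarith
    linarith
  have v2 : 3 / 4 * m1 ≤ P ε (z t0) x0 - B t0 x0 := by
    by_contra h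
    push Not at h
    have c2 := hexp t0 ht0
    have c3 := Real.exp_pos (-(κ * (t0 - a)))
    simp only [hΦ] at v1
    rcases le_total 0 (P ε (z t0) x0 - B t0 x0) with h5 | h5
    · have := mul_le_mul_of_nonneg_right c2 h5
      linarith
    · have := mul_nonpos_of_nonneg_of_nonpos c3.le h5
      linarith
  have c0 := abs_le.1 (hu1 ε hε hεa t0 ht0 x0 hx0)
  have cg := abs_le.1 (hu2 ε hε hεb t0 ht0 x0 hx0)
  have v3 : 0 < z t0 x0 - B t0 x0 := by nlinarith [c0.2]
  have hx0ρ : ‖x0‖ < ρ := by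
    by_contra h
    push Not at h
    have := hout t0 ht0 x0 h
    linarith
  have hat : a < t0 := by
    refine lt_of_le_of_ne ht0.1 fun h => ?_
    have := h0 x0
    rw [h] at this
    linarith
  obtain ⟨hc2, hdt, hineq⟩ := hsup t0 ⟨hat, ht0.2⟩ x0 (by linarith)
  -- space
  have hsp : DD ε (z t0) x0 ≤ Laplacian.laplacian (B t0) x0 := by
    refine space hε (slice hD.zc ht0).aestronglyMeasurable (hD.zb t0 ht0) hc2 ?_
    have h1 : ball (0 : E N) ρ ∈ 𝓝 x0 :=
      isOpen_ball.mem_nhds (by rw [mem_ball_zero_iff]; exact hx0ρ)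
    filter_upwards [h1] with y hy
    have h2 := hmax (show (t0, y) ∈ Icc a b ×ˢ closedBall (0 : E N) ρ from
      ⟨ht0, ball_subset_closedBall hy⟩)
    simp only [hΦ, mem_ofPred_eq] at h2
    have h3 := le_of_mul_le_mul_left h2 (Real.exp_pos _)
    linarith
  -- time
  have hti := time_ineq (W := fun s => P ε (z s) x0) (b := fun s => B s x0) (κ := κ) (a := a)
    hat (left_deriv hD hm hA hat ht0.2 hε x0) hdt.hasDerivAt (fun s hs => by
      have h2 := hmax (show (s, x0) ∈ Icc a b ×ˢ closedBall (0 : E N) ρ from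
        ⟨⟨hs.1, hs.2.trans ht0.2⟩, hx0⟩)
      simpa only [hΦ, mem_ofPred_eq] using h2)
  simp only at hti
  have hV0 : V t0 x0 * (z t0 x0 - B t0 x0) ≤ K * (z t0 x0 - B t0 x0) :=
    mul_le_mul_of_nonneg_right ((le_abs_self _).trans (hV.bdd t0 x0)) v3.le
  have hfin : κ * (P ε (z t0) x0 - B t0 x0) ≤ η + K * (z t0 x0 - B t0 x0) := by
    have h1 : g t0 x0 = V t0 x0 * z t0 x0 + F t0 x0 := rfl
    have h2 := cg.2
    rw [h1] at h2
    linarith
  have h5 : K * (z t0 x0 - B t0 x0) ≤ K * (P ε (z t0) x0 - B t0 x0 + η) :=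
    mul_le_mul_of_nonneg_left (by linarith [c0.1]) hK.le
  have h6 : κ * (P ε (z t0) x0 - B t0 x0) = K * (P ε (z t0) x0 - B t0 x0) +
      (P ε (z t0) x0 - B t0 x0) := by rw [hκ]; ring
  have h7 : P ε (z t0) x0 - B t0 x0 ≤ η + K * η := by linarith
  linarith

end Pool.Agent.H28.RF.MPV
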