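import Pool.Agent.H28.RF.PWA0

/-!
# MP_609556_an, module PWA: the kernel of the process seen in the moving frame
-/

open MeasureTheory Set Filter Topology Metric
open Pool.Agent.H29.TF
open Pool.Agent.H91.RD

namespace Pool.Agent.H28.RF.PWA

open Pool.Agent.H91.RF

variable {N : ℕ} {K C1 Kw : ℝ} {V : ℝ → E N → ℝ} {w : E N} {p : E N → ℝ}

theorem p_cont (hS : Sty K C1 Kw V w p) : Continuous p := by
  have hC : 0 ≤ C1 := by linarith [hS.hC1]
  have h1 : ∀ x y, Real.log (p x) ≤ C1 * ‖x - y‖ + Real.log (p y) := by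
    intro x y
    have := Real.log_le_log (hS.pos x) (hS.har x y)
    rwa [Real.log_mul (Real.exp_pos _).ne' (hS.pos y).ne', Real.log_exp] at this
  have h2 : LipschitzWith ⟨C1, hC⟩ (fun x => Real.log (p x)) := by
    refine LipschitzWith.of_dist_le_mul fun x y => ?_
    rw [Real.dist_eq, dist_eq_norm]
    show |Real.log (p x) - Real.log (p y)| ≤ C1 * ‖x - y‖
    rw [abs_le]
    have a := h1 x y
    have b := h1 y x
    rw [norm_sub_rev] at b
    constructor <;> linarith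
  have h3 : p = fun x => Real.exp (Real.log (p x)) := by
    ext x
    rw [Real.exp_log (hS.pos x)]
  rw [h3]
  exact Real.continuous_exp.comp h2.continuous

theorem hk_rw (τ : ℝ) (x y : E N) : hk τ (x - (y - τ • w)) = hk τ (y - x - τ • w) := by
  rw [← hk_neg]
  congr 1
  abel

theorem hk_rw2 (τ : ℝ) (x y : E N) : hk τ (y - x - τ • w) = hk τ (x - y + τ • w) := by
  rw [← hk_neg]
  congr 1
  abel

/-- bounds of the kernel -/
theorem kw_bounds (hKER : T_KER) (hS : Sty K C1 Kw V w p) {τ : ℝ} (h0 : 0 < τ) (x y : E N) :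
    Real.exp (-(K * τ + C1 * ‖y - x‖)) * hk τ (y - x - τ • w) ≤ kw V w p τ x y ∧
      kw V w p τ x y ≤ Real.exp (K * τ + C1 * ‖y - x‖) * hk τ (y - x - τ • w) := by
  obtain ⟨-, hb, -⟩ := hKER N K V hS.pt
  obtain ⟨b1, b2⟩ := hb (-τ) 0 (by linarith) x (y - τ • w)
  rw [show (0 : ℝ) - -τ = τ by ring, hk_rw] at b1 b2
  have hg := hk_pos h0 (y - x - τ • w)
  have hpx := hS.pos x
  have hpy := hS.pos y
  have q1 : p y / p x ≤ Real.exp (C1 * ‖y - x‖) := by
    rw [div_le_iff₀ hpx]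
    exact hS.har y x
  have q2 : Real.exp (-(C1 * ‖y - x‖)) ≤ p y / p x := by
    rw [le_div_iff₀ hpx, Real.exp_neg, inv_mul_le_iff₀ (Real.exp_pos _), norm_sub_rev]
    exact hS.har x y
  have hG : 0 < gk V 0 x (-τ) (y - τ • w) :=
    lt_of_lt_of_le (mul_pos (Real.exp_pos _) hg) b1
  unfold kw
  rw [mul_div_assoc]
  constructor
  · calc _ = (Real.exp (-(K * τ)) * hk τ (y - x - τ • w)) * Real.exp (-(C1 * ‖y - x‖)) := by
          rw [neg_add, Real.exp_add]; ring
      _ ≤ _ := mul_le_mul b1 q2 (Real.exp_pos _).le hG.le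
  · calc _ ≤ (Real.exp (K * τ) * hk τ (y - x - τ • w)) * Real.exp (C1 * ‖y - x‖) :=
          mul_le_mul b2 q1 (div_pos hpy hpx).le (mul_pos (Real.exp_pos _) hg).le
      _ = _ := by rw [Real.exp_add]; ring

theorem kw_near (hKER : T_KER) (hS : Sty K C1 Kw V w p) {τ : ℝ} (h0 : 0 < τ) (h1 : τ ≤ 1)
    (x y : E N) : |kw V w p τ x y - hk τ (y - x - τ • w)| ≤ hk τ (y - x - τ • w) *
      ((K * τ + C1 * ‖y - x‖) * Real.exp (K + C1 * ‖y - x‖)) := by
  obtain ⟨b1, b2⟩ := kw_bounds hKER hS h0 x y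
  have hg := hk_pos h0 (y - x - τ • w)
  have hK := hS.pt.K0
  have hC : 0 ≤ C1 := by linarith [hS.hC1]
  set b := K * τ + C1 * ‖y - x‖ with hb
  have hb0 : 0 ≤ b := by positivity
  have e1 : Real.exp b - 1 ≤ b * Real.exp b := by
    have h2 := Real.add_one_le_exp (-b)
    have h3 : Real.exp (-b) * Real.exp b = 1 := by rw [← Real.exp_add]; simp
    have h4 := mul_le_mul_of_nonneg_right h2 (Real.exp_pos b).le
    rw [h3] at h4
    linarith
  have e2 : 1 - Real.exp (-b) ≤ b := by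
    have := Real.add_one_le_exp (-b)
    linarith
  have e3 : b * Real.exp b ≤ b * Real.exp (K + C1 * ‖y - x‖) := by
    refine mul_le_mul_of_nonneg_left (Real.exp_le_exp.2 ?_) hb0
    rw [hb]
    nlinarith
  have e4 : b ≤ b * Real.exp (K + C1 * ‖y - x‖) :=
    le_mul_of_one_le_right hb0 (Real.one_le_exp (by positivity))
  rw [abs_le]
  constructor
  · have h5 : hk τ (y - x - τ • w) * (1 - Real.exp (-b)) ≤
        hk τ (y - x - τ • w) * (b * Real.exp (K + C1 * ‖y - x‖)) :=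
      mul_le_mul_of_nonneg_left (e2.trans e4) hg.le
    linarith
  · have h5 : hk τ (y - x - τ • w) * (Real.exp b - 1) ≤
        hk τ (y - x - τ • w) * (b * Real.exp (K + C1 * ‖y - x‖)) :=
      mul_le_mul_of_nonneg_left (e1.trans e3) hg.le
    linarith

theorem kw_meas (hKER : T_KER) (hS : Sty K C1 Kw V w p) {τ : ℝ} (h0 : 0 < τ) :
    Measurable (fun q : E N × E N => kw V w p τ q.1 q.2) := by
  obtain ⟨hm, -, -⟩ := hKER N K V hS.pt
  have h1 := hm (-τ) 0 (by linarith)
  have h2 : Measurable (fun q : E N × E N => (q.1, q.2 - τ • w)) := by fun_prop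
  have hp := (p_cont hS).measurable
  unfold kw
  exact ((h1.comp h2).mul (hp.comp measurable_snd)).div (hp.comp measurable_fst)

theorem kw_mass (hS : Sty K C1 Kw V w p) {τ : ℝ} (h0 : 0 < τ) (x : E N) :
    ∫ y, kw V w p τ x y = 1 := by
  have e1 := integral_add_right_eq_self (μ := volume)
    (fun y : E N => gk V 0 x (-τ) (y - τ • w) * p y) (τ • w)
  simp only [add_sub_cancel_right] at e1
  unfold kw
  rw [integral_div, ← e1, ← hS.eig τ h0 x, div_self (hS.pos x).ne']

theorem kw_semi (hKER : T_KER) (hKINV : T_KINV) (hS : Sty K C1 Kw V w p) {τ τ' : ℝ} (h0 : 0 < τ)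
    (h0' : 0 < τ') (x y : E N) :
    ∫ z, kw V w p τ x z * kw V w p τ' z y = kw V w p (τ + τ') x y := by
  obtain ⟨-, -, hck⟩ := hKER N K V hS.pt
  obtain ⟨hinv, hloc⟩ := hKINV N V
  have hshift : ∀ z : E N, gk V 0 z (-τ') (y - τ' • w) =
      gk V (-τ) (z - τ • w) (-(τ + τ')) (y - (τ + τ') • w) := by
    intro z
    have e1 := hinv (-τ) (-(τ • w)) 0 z (-τ') (y - τ' • w)
    have e2 := hloc (fun t x => V (-τ + t) (-(τ • w) + x)) (-τ') 0 (by linarith) (by
      intro r hr x'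
      have hr0 : r ≤ 0 := hr.2.le
      rw [hS.steady r hr0 x', hS.steady (-τ + r) (by linarith) (-(τ • w) + x')]
      congr 1
      rw [add_smul, neg_smul]
      abel) z (y - τ' • w)
    rw [e2, e1]
    congr 1
    · ring
    · abel
    · ring
    · rw [add_smul]
      abel
  have e3 : (fun z => kw V w p τ x z * kw V w p τ' z y) = fun z =>
      (gk V 0 x (-τ) (z - τ • w) * gk V (-τ) (z - τ • w) (-(τ + τ')) (y - (τ + τ') • w)) *
        (p y / p x) := by
    ext z
    unfold kw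
    rw [hshift z]
    have hz := (hS.pos z).ne'
    have hx := (hS.pos x).ne'
    field_simp
  rw [e3, integral_mul_const]
  have e4 := integral_sub_right_eq_self (μ := volume)
    (fun z : E N => gk V 0 x (-τ) z * gk V (-τ) z (-(τ + τ')) (y - (τ + τ') • w)) (τ • w)
  rw [e4, hck (-(τ + τ')) (-τ) 0 (by linarith) (by linarith)]
  unfold kw
  rw [mul_div_assoc]

theorem kw_rev (hKSYM : T_KSYM) (hS : Sty K C1 Kw V w p) {τ : ℝ} (h0 : 0 < τ) (x y : E N) :
    Real.exp (inner ℝ w x) * p x ^ 2 * kw V w p τ x y =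
      Real.exp (inner ℝ w y) * p y ^ 2 * kw V w p τ y x := by
  have h := hKSYM N K V w hS.pt hS.steady τ h0 x y
  have hx := (hS.pos x).ne'
  have hy := (hS.pos y).ne'
  have e1 : Real.exp (inner ℝ w x) =
      Real.exp (inner ℝ w (x + y) / 2) * Real.exp (inner ℝ w (x - y) / 2) := by
    rw [← Real.exp_add]
    congr 1
    rw [inner_add_right, inner_sub_right]
    ring
  have e2 : Real.exp (inner ℝ w y) =
      Real.exp (inner ℝ w (x + y) / 2) * Real.exp (inner ℝ w (y - x) / 2) := by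
    rw [← Real.exp_add]
    congr 1
    rw [inner_add_right, inner_sub_right]
    ring
  unfold kw
  have e3 : Real.exp (inner ℝ w x) * p x ^ 2 * (gk V 0 x (-τ) (y - τ • w) * p y / p x) =
      Real.exp (inner ℝ w (x + y) / 2) * (p x * p y) *
        (Real.exp (inner ℝ w (x - y) / 2) * gk V 0 x (-τ) (y - τ • w)) := by
    rw [e1]
    field_simp
  have e4 : Real.exp (inner ℝ w y) * p y ^ 2 * (gk V 0 y (-τ) (x - τ • w) * p x / p y) =
      Real.exp (inner ℝ w (x + y) / 2) * (p x * p y) *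
        (Real.exp (inner ℝ w (y - x) / 2) * gk V 0 y (-τ) (x - τ • w)) := by
    rw [e2]
    field_simp
  rw [e3, e4, h]

theorem pwa (hKER : T_KER) (hKINV : T_KINV) (hKSYM : T_KSYM) : T_PWA := by
  intro N K C1 Kw θm hθm
  by_cases hpar : 0 < K ∧ 1 ≤ C1 ∧ 0 ≤ Kw
  swap
  · exact ⟨1, le_rfl, fun V w p hS =>
      absurd ⟨hS.pt.K0, hS.hC1, (norm_nonneg w).trans hS.wle⟩ hpar⟩
  obtain ⟨hK, hC1, hKw⟩ := hpar
  obtain ⟨C, hC, hstep⟩ := step N K C1 Kw θm hK hC1 hKw hθm
  refine ⟨C + Real.exp K, by linarith [Real.exp_pos K], ?_⟩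
  intro V w p hS
  have hm1 : ∀ τ, 0 < τ → ∀ x, Measurable (fun y => kw V w p τ x y) := fun τ h0 x =>
    (kw_meas hKER hS h0).comp (measurable_const.prodMk measurable_id)
  refine ⟨fun τ h0 => kw_meas hKER hS h0, fun τ h0 x y => ?_, fun τ h0 x => kw_mass hS h0 x,
    fun τ h0 τ' h0' x y => kw_semi hKER hKINV hS h0 h0' x y,
    fun τ h0 x y => kw_rev hKSYM hS h0 x y, fun τ h0 h1 x y => ?_, fun τ h0 h1 x => ?_,
    fun τ h0 h1 θ hθ x => ?_⟩
  · exact lt_of_lt_of_le (mul_pos (Real.exp_pos _) (hk_pos h0 _)) (kw_bounds hKER hS h0 x y).1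
  · have hg := hk_pos h0 (y - x - τ • w)
    refine (kw_bounds hKER hS h0 x y).2.trans ?_
    rw [hk_rw2] at hg ⊢
    have h2 : Real.exp (K * τ) ≤ C + Real.exp K := by
      have : Real.exp (K * τ) ≤ Real.exp K := Real.exp_le_exp.2 (by nlinarith)
      linarith
    rw [Real.exp_add]
    have h3 := mul_le_mul_of_nonneg_right h2
      (mul_pos (Real.exp_pos (C1 * ‖y - x‖)) hg).le
    linarith
  · obtain ⟨h2, -⟩ := hstep τ h0 h1 w hS.wle x (fun y => kw V w p τ x y) (hm1 τ h0 x)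
      (kw_mass hS h0 x) (fun y => kw_near hKER hS h0 h1 x y)
    refine h2.trans ?_
    have := mul_pos (Real.exp_pos K) h0
    linarith
  · obtain ⟨-, h2⟩ := hstep τ h0 h1 w hS.wle x (fun y => kw V w p τ x y) (hm1 τ h0 x)
      (kw_mass hS h0 x) (fun y => kw_near hKER hS h0 h1 x y)
    refine (h2 θ hθ).trans ?_
    have h3 : 0 ≤ Real.exp K * (τ * √τ) := by positivity
    linarith

end Pool.Agent.H28.RF.PWA
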