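import Pool.Agent.H91.RF.TargetsF
import Pool.Agent.H29.TF.Heat

/-!
# MP_609556_an, module PWA, part 0: Gaussian moments and one step of the kernel
-/

open MeasureTheory Set Filter Topology Metric
open Pool.Agent.H29.TF
open Pool.Agent.H91.RD

namespace Pool.Agent.H28.RF.PWA

open Pool.Agent.H91.RF

/-- pointwise Gaussian moment bound -/
theorem mom (N k : ℕ) (a Kw : ℝ) (ha : 0 ≤ a) (hKw : 0 ≤ Kw) : ∃ C, 0 ≤ C ∧
    ∀ τ, 0 < τ → τ ≤ 1 → ∀ w : E N, ‖w‖ ≤ Kw → ∀ d : E N,
      hk τ (d - τ • w) * (‖d‖ ^ k * Real.exp (a * ‖d‖)) ≤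
        C * √τ ^ k * hk (4 * τ) (d - τ • w) := by
  refine ⟨(4 : ℝ) ^ ((N : ℝ) / 2) * k.factorial *
    Real.exp ((a + 1) * Kw + 4 / 3 * (a + 1) ^ 2), by positivity, ?_⟩
  intro τ h0 h1 w hw d
  set r := √τ with hr
  have hr0 : 0 < r := Real.sqrt_pos.2 h0
  have hrr : r * r = τ := Real.mul_self_sqrt h0.le
  have hr1 : r ≤ 1 := by rw [hr]; exact Real.sqrt_le_one.2 h1
  set v := d - τ • w with hv
  set u := ‖v‖ / r with hu
  have hu0 : 0 ≤ u := div_nonneg (norm_nonneg _) hr0.le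
  have hvu : ‖v‖ = r * u := by rw [hu]; field_simp
  have hd : ‖d‖ ≤ r * (u + Kw) := by
    have e : d = v + τ • w := by rw [hv]; abel
    calc ‖d‖ ≤ ‖v‖ + ‖τ • w‖ := by rw [e]; exact norm_add_le _ _
      _ = r * u + r * r * ‖w‖ := by rw [hvu, norm_smul, Real.norm_of_nonneg h0.le, hrr]
      _ ≤ r * u + r * 1 * Kw := by gcongr
      _ = _ := by ring
  have hd2 : ‖d‖ ≤ u + Kw := hd.trans (by nlinarith)
  have huK : 0 ≤ u + Kw := by positivity
  have hp1 : ‖d‖ ^ k ≤ r ^ k * (k.factorial * Real.exp (u + Kw)) := by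
    have h2 := Real.pow_div_factorial_le_exp (u + Kw) huK k
    have h3 : (u + Kw) ^ k ≤ k.factorial * Real.exp (u + Kw) := by
      rw [div_le_iff₀ (by positivity)] at h2
      linarith
    calc ‖d‖ ^ k ≤ (r * (u + Kw)) ^ k := by gcongr
      _ = r ^ k * (u + Kw) ^ k := mul_pow _ _ _
      _ ≤ _ := by gcongr
  have hp2 : Real.exp (a * ‖d‖) ≤ Real.exp (a * (u + Kw)) := by gcongr
  have hg : hk τ v = (4 : ℝ) ^ ((N : ℝ) / 2) * hk (4 * τ) v * Real.exp (-(3 / 16 * u ^ 2)) := by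
    unfold hk
    have h3 : (4 * Real.pi * (4 * τ)) ^ (-(N : ℝ) / 2) =
        (4 : ℝ) ^ (-(N : ℝ) / 2) * (4 * Real.pi * τ) ^ (-(N : ℝ) / 2) := by
      rw [← Real.mul_rpow (by norm_num) (by positivity)]
      congr 1
      ring
    have h4 : (4 : ℝ) ^ ((N : ℝ) / 2) * (4 : ℝ) ^ (-(N : ℝ) / 2) = 1 := by
      rw [← Real.rpow_add (by norm_num), show (N : ℝ) / 2 + -(N : ℝ) / 2 = 0 by ring,
        Real.rpow_zero]
    have h5 : Real.exp (-‖v‖ ^ 2 / (4 * τ)) =
        Real.exp (-‖v‖ ^ 2 / (4 * (4 * τ))) * Real.exp (-(3 / 16 * u ^ 2)) := by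
      rw [← Real.exp_add]
      congr 1
      rw [hvu, ← hrr]
      field_simp
      ring
    rw [finrank_euclideanSpace, Fintype.card_fin, h3, h5]
    linear_combination (-((4 * Real.pi * τ) ^ (-(N : ℝ) / 2) *
      Real.exp (-‖v‖ ^ 2 / (4 * (4 * τ))) * Real.exp (-(3 / 16 * u ^ 2)))) * h4
  have hh : 0 ≤ hk (4 * τ) v := (hk_pos (by positivity) _).le
  calc hk τ v * (‖d‖ ^ k * Real.exp (a * ‖d‖))
      ≤ hk τ v * (r ^ k * (k.factorial * Real.exp (u + Kw)) * Real.exp (a * (u + Kw))) := by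
        have := (hk_pos h0 v).le
        gcongr
    _ = (4 : ℝ) ^ ((N : ℝ) / 2) * k.factorial * r ^ k * hk (4 * τ) v *
        (Real.exp (u + Kw) * Real.exp (a * (u + Kw)) * Real.exp (-(3 / 16 * u ^ 2))) := by
        rw [hg]; ring
    _ ≤ (4 : ℝ) ^ ((N : ℝ) / 2) * k.factorial * r ^ k * hk (4 * τ) v *
        Real.exp ((a + 1) * Kw + 4 / 3 * (a + 1) ^ 2) := by
        refine mul_le_mul_of_nonneg_left ?_ (by positivity)
        rw [← Real.exp_add, ← Real.exp_add]
        apply Real.exp_le_exp.2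
        nlinarith [sq_nonneg (u - 8 / 3 * (a + 1))]
    _ = _ := by ring

theorem continuous_hkc (N : ℕ) (τ : ℝ) (b : E N) : Continuous (fun y : E N => hk τ (y - b)) :=
  (continuous_hk τ).comp (by fun_prop)

theorem integrable_hk_c {N : ℕ} {τ : ℝ} (h0 : 0 < τ) (b : E N) :
    Integrable (fun y : E N => hk τ (y - b)) := by
  have := integrable_hk_sub h0 b
  refine this.congr (Filter.Eventually.of_forall fun y => ?_)
  exact hk_sub_comm τ b y

theorem integral_hk_c {N : ℕ} {τ : ℝ} (h0 : 0 < τ) (b : E N) :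
    ∫ y : E N, hk τ (y - b) = 1 := by
  rw [← integral_hk_sub h0 b]
  congr 1
  ext y
  exact hk_sub_comm τ y b

/-- integrated Gaussian moment bound -/
theorem momI (N k : ℕ) (a Kw : ℝ) (ha : 0 ≤ a) (hKw : 0 ≤ Kw) : ∃ C, 0 ≤ C ∧
    ∀ τ, 0 < τ → τ ≤ 1 → ∀ w : E N, ‖w‖ ≤ Kw → ∀ x : E N,
      Integrable (fun y => hk τ (y - x - τ • w) * (‖y - x‖ ^ k * Real.exp (a * ‖y - x‖))) ∧
      ∫ y, hk τ (y - x - τ • w) * (‖y - x‖ ^ k * Real.exp (a * ‖y - x‖)) ≤ C * √τ ^ k := by
  obtain ⟨C, hC, h⟩ := mom N k a Kw ha hKw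
  refine ⟨C, hC, ?_⟩
  intro τ h0 h1 w hw x
  have h4 : (0 : ℝ) < 4 * τ := by positivity
  have hi : Integrable (fun y : E N => C * √τ ^ k * hk (4 * τ) (y - x - τ • w)) := by
    have := (integrable_hk_c h4 (x + τ • w)).const_mul (C * √τ ^ k)
    refine this.congr (Filter.Eventually.of_forall fun y => ?_)
    simp only [sub_add_eq_sub_sub]
  have hI : Integrable
      (fun y => hk τ (y - x - τ • w) * (‖y - x‖ ^ k * Real.exp (a * ‖y - x‖))) := by
    refine Integrable.mono' hi (Continuous.aestronglyMeasurable ?_)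
      (Filter.Eventually.of_forall fun y => ?_)
    · refine Continuous.mul ?_ (by fun_prop)
      exact (continuous_hk τ).comp (by fun_prop)
    · rw [Real.norm_of_nonneg (mul_nonneg (hk_pos h0 _).le (by positivity))]
      exact h τ h0 h1 w hw (y - x)
  refine ⟨hI, (integral_mono hI hi fun y => h τ h0 h1 w hw (y - x)).trans (le_of_eq ?_)⟩
  rw [integral_const_mul]
  have : ∫ y : E N, hk (4 * τ) (y - x - τ • w) = 1 := by
    rw [← integral_hk_c h4 (x + τ • w)]
    congr 1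
    ext y
    rw [sub_add_eq_sub_sub]
  rw [this, mul_one]

/-- exact exponential moment -/
theorem hk_expv {N : ℕ} {τ : ℝ} (h0 : 0 < τ) (w θ x y : E N) :
    hk τ (y - x - τ • w) * Real.exp (inner ℝ θ (y - x)) =
      Real.exp (τ * inner ℝ θ w + τ * ‖θ‖ ^ 2) * hk τ (y - (x + τ • w + (2 * τ) • θ)) := by
  unfold hk
  have h1 : Real.exp (-‖y - x - τ • w‖ ^ 2 / (4 * τ)) * Real.exp (inner ℝ θ (y - x)) =
      Real.exp (τ * inner ℝ θ w + τ * ‖θ‖ ^ 2) *
        Real.exp (-‖y - (x + τ • w + (2 * τ) • θ)‖ ^ 2 / (4 * τ)) := by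
    rw [← Real.exp_add, ← Real.exp_add]
    congr 1
    obtain ⟨v, hv⟩ : ∃ v, v = y - x - τ • w := ⟨_, rfl⟩
    have e1 : y - (x + τ • w + (2 * τ) • θ) = v - (2 * τ) • θ := by rw [hv]; abel
    have e2 : y - x = v + τ • w := by rw [hv]; abel
    rw [e1, ← hv, e2, norm_sub_sq_real, norm_smul, inner_smul_right, inner_add_right,
      inner_smul_right, Real.norm_eq_abs, mul_pow, sq_abs, real_inner_comm θ v]
    field_simp
    ring
  linear_combination ((4 * Real.pi * τ) ^ (-(Module.finrank ℝ (E N) : ℝ) / 2)) * h1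

/-- the first moment of the heat kernel vanishes -/
theorem hk_odd {N : ℕ} (τ : ℝ) : ∫ z : E N, hk τ z • z = 0 := by
  have h := integral_neg_eq_self (fun z : E N => hk τ z • z) volume
  have h2 : (∫ z : E N, hk τ (-z) • (-z)) = -∫ z : E N, hk τ z • z := by
    rw [← integral_neg]
    congr 1
    ext1 z
    rw [hk_neg, smul_neg]
  rw [h2] at h
  have h3 : (2 : ℝ) • (∫ z : E N, hk τ z • z) = 0 := by
    rw [two_smul]
    nth_rewrite 1 [← h]
    exact neg_add_cancel _
  exact (smul_eq_zero.1 h3).resolve_left (by norm_num)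

theorem exp_sub_le (s : ℝ) : Real.exp s - 1 - s ≤ s ^ 2 * Real.exp |s| := by
  rcases le_total 0 s with h | h
  · rw [abs_of_nonneg h]
    have h1 : Real.exp s - 1 ≤ s * Real.exp s := by
      have h2 := Real.add_one_le_exp (-s)
      have h3 : Real.exp (-s) * Real.exp s = 1 := by rw [← Real.exp_add]; simp
      have h4 := mul_le_mul_of_nonneg_right h2 (Real.exp_pos s).le
      rw [h3] at h4
      linarith
    have h5 := mul_le_mul_of_nonneg_left h1 h
    have h6 : Real.exp s - 1 - s ≤ s * (Real.exp s - 1) := by linarith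
    nlinarith
  · rw [abs_of_nonpos h]
    have h1 := Real.add_one_le_exp (-s)
    have h3 : Real.exp (-s) * Real.exp s = 1 := by rw [← Real.exp_add]; simp
    have h4 := mul_le_mul_of_nonneg_right h1 (Real.exp_pos s).le
    rw [h3] at h4
    have h5 := Real.add_one_le_exp s
    have h6 : Real.exp s - 1 - s ≤ s ^ 2 := by nlinarith
    have h7 : (1 : ℝ) ≤ Real.exp (-s) := Real.one_le_exp (by linarith)
    nlinarith [sq_nonneg s]

theorem exp_sub_nonneg (s : ℝ) : 0 ≤ Real.exp s - 1 - s := by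
  have := Real.add_one_le_exp s
  linarith

/-- the final scalar estimate -/
theorem final {τ Kw θm L n i m I c Q : ℝ} (h0 : 0 < τ) (h1 : τ ≤ 1)
    (hL : L = θm * Kw + θm ^ 2) (hL0 : 0 ≤ L) (hn : 0 ≤ n) (hnθ : n ≤ θm)
    (hin : |i| ≤ θm * Kw) (hτr : τ * τ ≤ τ * √τ) (hI : I ≤ c * (τ * √τ)) (hQ : 0 ≤ Q) :
    Real.exp (τ * i + τ * n ^ 2) + 0 + (m - τ * i) + I ≤
      1 + m + n ^ 2 * τ + (1 + Q + (L ^ 2 * Real.exp L + c)) * (τ * √τ) := by
  obtain ⟨α, hα⟩ : ∃ α, α = τ * i + τ * n ^ 2 := ⟨_, rfl⟩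
  rw [← hα]
  have hαb : |α| ≤ τ * L := by
    rw [hα, ← mul_add, abs_mul, abs_of_pos h0]
    refine mul_le_mul_of_nonneg_left ?_ h0.le
    calc |i + n ^ 2| ≤ |i| + |n ^ 2| := abs_add_le _ _
      _ ≤ θm * Kw + θm ^ 2 := by
        rw [abs_of_nonneg (sq_nonneg n)]
        have : n ^ 2 ≤ θm ^ 2 := pow_le_pow_left₀ hn hnθ 2
        linarith
      _ = L := hL.symm
  have hexpα : Real.exp α ≤ 1 + α + L ^ 2 * Real.exp L * (τ * √τ) := by
    have h2 := exp_sub_le α
    have h3 : α ^ 2 ≤ (τ * L) ^ 2 := by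
      rw [← sq_abs]
      exact pow_le_pow_left₀ (abs_nonneg _) hαb 2
    have hτL : τ * L ≤ L := by nlinarith
    have h4 : Real.exp |α| ≤ Real.exp L := Real.exp_le_exp.2 (hαb.trans hτL)
    have h5 : α ^ 2 * Real.exp |α| ≤ (τ * L) ^ 2 * Real.exp L :=
      mul_le_mul h3 h4 (Real.exp_pos _).le (sq_nonneg _)
    have h6 : (τ * L) ^ 2 * Real.exp L ≤ L ^ 2 * Real.exp L * (τ * √τ) := by
      have h7 := mul_le_mul_of_nonneg_left hτr (by positivity : 0 ≤ L ^ 2 * Real.exp L)
      have h8 : (τ * L) ^ 2 * Real.exp L = L ^ 2 * Real.exp L * (τ * τ) := by ring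
      rw [h8]
      exact h7
    linarith
  have h7 : 0 ≤ (1 + Q) * (τ * √τ) := by positivity
  have h9 : 1 + α + L ^ 2 * Real.exp L * (τ * √τ) + 0 + (m - τ * i) + c * (τ * √τ) +
      (1 + Q) * (τ * √τ) =
      1 + m + n ^ 2 * τ + (1 + Q + (L ^ 2 * Real.exp L + c)) * (τ * √τ) := by
    rw [hα]; ring
  linarith

/-- one step: first moment and exponential moment of a density close to the heat kernel -/
theorem step (N : ℕ) (K C1 Kw θm : ℝ) (hK : 0 < K) (hC1 : 1 ≤ C1) (hKw : 0 ≤ Kw) (hθm : 0 < θm) :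
    ∃ C, 1 ≤ C ∧ ∀ τ, 0 < τ → τ ≤ 1 → ∀ w : E N, ‖w‖ ≤ Kw → ∀ (x : E N) (A : E N → ℝ),
      Measurable A → (∫ y, A y = 1) →
      (∀ y, |A y - hk τ (y - x - τ • w)| ≤ hk τ (y - x - τ • w) *
        ((K * τ + C1 * ‖y - x‖) * Real.exp (K + C1 * ‖y - x‖))) →
      ‖∫ y, A y • (y - x)‖ ≤ C * τ ∧
      ∀ θ : E N, ‖θ‖ ≤ θm → ∫ y, A y * Real.exp (inner ℝ θ (y - x)) ≤
        1 + inner ℝ θ (∫ y, A y • (y - x)) + ‖θ‖ ^ 2 * τ + C * (τ * √τ) := by
  have hC10 : 0 ≤ C1 := by linarith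
  obtain ⟨c0, hc0, m0⟩ := momI N 0 (C1 + θm) Kw (by positivity) hKw
  obtain ⟨c1, hc1, m1⟩ := momI N 1 (C1 + θm) Kw (by positivity) hKw
  obtain ⟨c2, hc2, m2⟩ := momI N 2 (C1 + θm) Kw (by positivity) hKw
  obtain ⟨c3, hc3, m3⟩ := momI N 3 (C1 + θm) Kw (by positivity) hKw
  set L := θm * Kw + θm ^ 2 with hL
  have hL0 : 0 ≤ L := by positivity
  refine ⟨1 + (Kw + Real.exp K * (K * c1 + C1 * c2)) +
    (L ^ 2 * Real.exp L + Real.exp K * θm ^ 2 * (K * c2 + C1 * c3)),
    by
      have : 0 ≤ (Kw + Real.exp K * (K * c1 + C1 * c2)) +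
        (L ^ 2 * Real.exp L + Real.exp K * θm ^ 2 * (K * c2 + C1 * c3)) := by positivity
      linarith, ?_⟩
  intro τ h0 h1 w hw x A hAm hA1 hAg
  obtain ⟨i0, -⟩ := m0 τ h0 h1 w hw x
  obtain ⟨i1, b1⟩ := m1 τ h0 h1 w hw x
  obtain ⟨i2, b2⟩ := m2 τ h0 h1 w hw x
  obtain ⟨i3, b3⟩ := m3 τ h0 h1 w hw x
  have hr0 : 0 < √τ := Real.sqrt_pos.2 h0
  have hrr : √τ * √τ = τ := Real.mul_self_sqrt h0.le
  have hr1 : √τ ≤ 1 := Real.sqrt_le_one.2 h1
  have hτr : τ * τ ≤ τ * √τ := by
    have : τ ≤ √τ := by nlinarith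
    exact mul_le_mul_of_nonneg_left this h0.le
  have hg0 : ∀ y : E N, 0 ≤ hk τ (y - x - τ • w) := fun y => (hk_pos h0 _).le
  have hgc : Continuous (fun y : E N => hk τ (y - x - τ • w)) :=
    (continuous_hk τ).comp (by fun_prop)
  -- integrability of `g φ` for `|φ| ≤ c (1 + …) e^{…}`
  have hgI : Integrable (fun y : E N => hk τ (y - x - τ • w)) := by
    refine (integrable_hk_c h0 (x + τ • w)).congr (Filter.Eventually.of_forall fun y => ?_)
    simp only [sub_add_eq_sub_sub]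
  have hg1 : ∫ y : E N, hk τ (y - x - τ • w) = 1 := by
    rw [← integral_hk_c h0 (x + τ • w)]
    congr 1
    ext y
    rw [sub_add_eq_sub_sub]
  have hAI : Integrable A := by
    by_contra hcon
    rw [integral_undef hcon] at hA1
    exact zero_ne_one hA1
  have hDm : Measurable (fun y => A y - hk τ (y - x - τ • w)) := hAm.sub hgc.measurable
  -- basic estimate of `|A - g| ‖d‖^k e^{θm ‖d‖}`
  have hEb : ∀ (y : E N), hk τ (y - x - τ • w) *
      ((K * τ + C1 * ‖y - x‖) * Real.exp (K + C1 * ‖y - x‖)) * Real.exp (θm * ‖y - x‖) =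
      Real.exp K * (K * τ * (hk τ (y - x - τ • w) * (‖y - x‖ ^ 0 *
        Real.exp ((C1 + θm) * ‖y - x‖))) +
        C1 * (hk τ (y - x - τ • w) * (‖y - x‖ ^ 1 * Real.exp ((C1 + θm) * ‖y - x‖)))) := by
    intro y
    rw [show K + C1 * ‖y - x‖ = K + C1 * ‖y - x‖ by rfl, Real.exp_add,
      show (C1 + θm) * ‖y - x‖ = C1 * ‖y - x‖ + θm * ‖y - x‖ by ring, Real.exp_add]
    ring
  have hD : ∀ y : E N, |A y - hk τ (y - x - τ • w)| * Real.exp (θm * ‖y - x‖) ≤
      Real.exp K * (K * τ * (hk τ (y - x - τ • w) * (‖y - x‖ ^ 0 *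
        Real.exp ((C1 + θm) * ‖y - x‖))) +
        C1 * (hk τ (y - x - τ • w) * (‖y - x‖ ^ 1 * Real.exp ((C1 + θm) * ‖y - x‖)))) := by
    intro y
    rw [← hEb y]
    exact mul_le_mul_of_nonneg_right (hAg y) (Real.exp_pos _).le
  have hD1 : ∀ y : E N, |A y - hk τ (y - x - τ • w)| * (‖y - x‖ * Real.exp (θm * ‖y - x‖)) ≤
      Real.exp K * (K * τ * (hk τ (y - x - τ • w) * (‖y - x‖ ^ 1 *
        Real.exp ((C1 + θm) * ‖y - x‖))) +
        C1 * (hk τ (y - x - τ • w) * (‖y - x‖ ^ 2 * Real.exp ((C1 + θm) * ‖y - x‖)))) := by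
    intro y
    have := mul_le_mul_of_nonneg_left (hD y) (norm_nonneg (y - x))
    calc _ = ‖y - x‖ * (|A y - hk τ (y - x - τ • w)| * Real.exp (θm * ‖y - x‖)) := by ring
      _ ≤ _ := this
      _ = _ := by ring
  have hD2 : ∀ y : E N, |A y - hk τ (y - x - τ • w)| * (‖y - x‖ ^ 2 * Real.exp (θm * ‖y - x‖)) ≤
      Real.exp K * (K * τ * (hk τ (y - x - τ • w) * (‖y - x‖ ^ 2 *
        Real.exp ((C1 + θm) * ‖y - x‖))) +
        C1 * (hk τ (y - x - τ • w) * (‖y - x‖ ^ 3 * Real.exp ((C1 + θm) * ‖y - x‖)))) := by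
    intro y
    have := mul_le_mul_of_nonneg_left (hD1 y) (norm_nonneg (y - x))
    calc _ = ‖y - x‖ * (|A y - hk τ (y - x - τ • w)| * (‖y - x‖ * Real.exp (θm * ‖y - x‖))) := by
          ring
      _ ≤ _ := this
      _ = _ := by ring
  have J1 : Integrable (fun y : E N => Real.exp K * (K * τ * (hk τ (y - x - τ • w) *
      (‖y - x‖ ^ 1 * Real.exp ((C1 + θm) * ‖y - x‖))) +
        C1 * (hk τ (y - x - τ • w) * (‖y - x‖ ^ 2 * Real.exp ((C1 + θm) * ‖y - x‖))))) :=
    ((i1.const_mul _).add (i2.const_mul _)).const_mul _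
  have J2 : Integrable (fun y : E N => Real.exp K * (K * τ * (hk τ (y - x - τ • w) *
      (‖y - x‖ ^ 2 * Real.exp ((C1 + θm) * ‖y - x‖))) +
        C1 * (hk τ (y - x - τ • w) * (‖y - x‖ ^ 3 * Real.exp ((C1 + θm) * ‖y - x‖))))) :=
    ((i2.const_mul _).add (i3.const_mul _)).const_mul _
  have J1b : ∫ y : E N, Real.exp K * (K * τ * (hk τ (y - x - τ • w) *
      (‖y - x‖ ^ 1 * Real.exp ((C1 + θm) * ‖y - x‖))) +
        C1 * (hk τ (y - x - τ • w) * (‖y - x‖ ^ 2 * Real.exp ((C1 + θm) * ‖y - x‖)))) ≤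
      Real.exp K * (K * c1 + C1 * c2) * τ := by
    rw [integral_const_mul, integral_add (i1.const_mul _) (i2.const_mul _), integral_const_mul,
      integral_const_mul, mul_assoc (Real.exp K) (K * c1 + C1 * c2) τ]
    refine mul_le_mul_of_nonneg_left ?_ (Real.exp_pos _).le
    have e2 : √τ ^ 2 = τ := by rw [sq, hrr]
    rw [e2] at b2
    rw [pow_one] at b1
    have h3 : c1 * √τ ≤ c1 := by nlinarith
    have h4 := mul_le_mul_of_nonneg_left (b1.trans h3) (by positivity : 0 ≤ K * τ)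
    have h5 := mul_le_mul_of_nonneg_left b2 hC10
    simp only [pow_one] at h4 ⊢
    linarith
  have J2b : ∫ y : E N, Real.exp K * (K * τ * (hk τ (y - x - τ • w) *
      (‖y - x‖ ^ 2 * Real.exp ((C1 + θm) * ‖y - x‖))) +
        C1 * (hk τ (y - x - τ • w) * (‖y - x‖ ^ 3 * Real.exp ((C1 + θm) * ‖y - x‖)))) ≤
      Real.exp K * (K * c2 + C1 * c3) * (τ * √τ) := by
    rw [integral_const_mul, integral_add (i2.const_mul _) (i3.const_mul _), integral_const_mul,
      integral_const_mul, mul_assoc (Real.exp K) (K * c2 + C1 * c3) (τ * √τ)]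
    refine mul_le_mul_of_nonneg_left ?_ (Real.exp_pos _).le
    have e2 : √τ ^ 2 = τ := by rw [sq, hrr]
    have e3 : √τ ^ 3 = τ * √τ := by rw [pow_succ, e2]
    rw [e2] at b2
    rw [e3] at b3
    have h4 := mul_le_mul_of_nonneg_left b2 (by positivity : 0 ≤ K * τ)
    have h5 := mul_le_mul_of_nonneg_left b3 hC10
    have h6 : K * τ * (c2 * τ) ≤ K * c2 * (τ * √τ) := by
      have := mul_le_mul_of_nonneg_left hτr (by positivity : 0 ≤ K * c2)
      nlinarith
    linarith
  -- vector integrals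
  have hexp1 : ∀ y : E N, (1 : ℝ) ≤ Real.exp (θm * ‖y - x‖) := fun y =>
    Real.one_le_exp (by positivity)
  have hgv : Integrable (fun y : E N => hk τ (y - x - τ • w) • (y - x)) := by
    refine Integrable.mono' i1 ((hgc.smul (by fun_prop)).aestronglyMeasurable)
      (Filter.Eventually.of_forall fun y => ?_)
    rw [norm_smul, Real.norm_of_nonneg (hg0 y), pow_one]
    refine mul_le_mul_of_nonneg_left ?_ (hg0 y)
    exact le_mul_of_one_le_right (norm_nonneg _) (Real.one_le_exp (by positivity))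
  have hDv : Integrable (fun y : E N => (A y - hk τ (y - x - τ • w)) • (y - x)) := by
    refine Integrable.mono' J1 ((hDm.smul (by fun_prop : Measurable fun y : E N =>
      y - x)).aestronglyMeasurable) (Filter.Eventually.of_forall fun y => ?_)
    rw [norm_smul, Real.norm_eq_abs]
    refine le_trans ?_ (hD1 y)
    refine mul_le_mul_of_nonneg_left ?_ (abs_nonneg _)
    exact le_mul_of_one_le_right (norm_nonneg _) (hexp1 y)
  have hAv : Integrable (fun y : E N => A y • (y - x)) := by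
    refine (hDv.add hgv).congr (Filter.Eventually.of_forall fun y => ?_)
    simp only [Pi.add_apply]
    rw [← add_smul, sub_add_cancel]
  have hgm : ∫ y : E N, hk τ (y - x - τ • w) • (y - x) = τ • w := by
    have e1 := integral_sub_right_eq_self (μ := volume)
      (fun z : E N => hk τ z • (z + τ • w)) (x + τ • w)
    have e2 : (fun y : E N => hk τ (y - (x + τ • w)) • (y - (x + τ • w) + τ • w)) =
        fun y : E N => hk τ (y - x - τ • w) • (y - x) := by
      ext1 y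
      rw [sub_add_eq_sub_sub, sub_add_cancel]
    rw [e2] at e1
    rw [e1]
    have e3 : (fun z : E N => hk τ z • (z + τ • w)) = fun z => hk τ z • z + hk τ z • (τ • w) := by
      ext1 z
      rw [smul_add]
    have e4 : Integrable (fun z : E N => hk τ z • z) := by
      have := hgv.comp_add_right (x + τ • w)
      have e5 : Integrable (fun z : E N => hk τ z • (z + τ • w)) := by
        refine this.congr (Filter.Eventually.of_forall fun z => ?_)
        simp only
        rw [show z + (x + τ • w) - x - τ • w = z by abel,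
          show z + (x + τ • w) - x = z + τ • w by abel]
      have e6 := e5.sub ((integrable_hk h0).smul_const (τ • w))
      refine e6.congr (Filter.Eventually.of_forall fun z => ?_)
      simp only [Pi.sub_apply]
      rw [smul_add, add_sub_cancel_right]
    rw [e3, integral_add e4 ((integrable_hk h0).smul_const (τ • w)), hk_odd, zero_add,
      integral_smul_const, integral_hk h0, one_smul]
  have hAvs : ∫ y : E N, A y • (y - x) =
      (∫ y : E N, (A y - hk τ (y - x - τ • w)) • (y - x)) + τ • w := by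
    have h2 := integral_add hDv hgv
    rw [hgm] at h2
    rw [← h2]
    congr 1
    ext1 y
    rw [← add_smul, sub_add_cancel]
  have hnorm : ‖∫ y : E N, (A y - hk τ (y - x - τ • w)) • (y - x)‖ ≤
      Real.exp K * (K * c1 + C1 * c2) * τ := by
    refine le_trans (norm_integral_le_of_norm_le J1 (Filter.Eventually.of_forall fun y => ?_)) J1b
    rw [norm_smul, Real.norm_eq_abs]
    refine le_trans ?_ (hD1 y)
    refine mul_le_mul_of_nonneg_left ?_ (abs_nonneg _)
    exact le_mul_of_one_le_right (norm_nonneg _) (hexp1 y)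
  refine ⟨?_, ?_⟩
  · rw [hAvs]
    have h2 : ‖τ • w‖ ≤ Kw * τ := by
      rw [norm_smul, Real.norm_of_nonneg h0.le, mul_comm]
      exact mul_le_mul_of_nonneg_right hw h0.le
    have h3 : 0 ≤ (1 + (L ^ 2 * Real.exp L + Real.exp K * θm ^ 2 * (K * c2 + C1 * c3))) * τ := by
      positivity
    refine ((norm_add_le _ _).trans (add_le_add hnorm h2)).trans ?_
    linarith
  · intro θ hθ
    have hs : ∀ y : E N, |inner ℝ θ (y - x)| ≤ θm * ‖y - x‖ := fun y =>
      (abs_real_inner_le_norm _ _).trans (mul_le_mul_of_nonneg_right hθ (norm_nonneg _))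
    -- pieces
    have I1 : Integrable (fun y : E N => hk τ (y - x - τ • w) *
        Real.exp (inner ℝ θ (y - x))) := by
      have : (fun y : E N => hk τ (y - x - τ • w) * Real.exp (inner ℝ θ (y - x))) =
          fun y => Real.exp (τ * inner ℝ θ w + τ * ‖θ‖ ^ 2) *
            hk τ (y - (x + τ • w + (2 * τ) • θ)) := by
        ext y; exact hk_expv h0 w θ x y
      rw [this]
      exact (integrable_hk_c h0 _).const_mul _
    have I1v : ∫ y : E N, hk τ (y - x - τ • w) * Real.exp (inner ℝ θ (y - x)) =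
        Real.exp (τ * inner ℝ θ w + τ * ‖θ‖ ^ 2) := by
      have : (fun y : E N => hk τ (y - x - τ • w) * Real.exp (inner ℝ θ (y - x))) =
          fun y => Real.exp (τ * inner ℝ θ w + τ * ‖θ‖ ^ 2) *
            hk τ (y - (x + τ • w + (2 * τ) • θ)) := by
        ext y; exact hk_expv h0 w θ x y
      rw [this, integral_const_mul, integral_hk_c h0, mul_one]
    have I2 : Integrable (fun y : E N => A y - hk τ (y - x - τ • w)) := hAI.sub hgI
    have I2v : ∫ y : E N, (A y - hk τ (y - x - τ • w)) = 0 := by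
      rw [integral_sub hAI hgI, hA1, hg1, sub_self]
    have I3 : Integrable (fun y : E N => inner ℝ θ ((A y - hk τ (y - x - τ • w)) • (y - x))) :=
      hDv.const_inner θ
    have I3v : ∫ y : E N, inner ℝ θ ((A y - hk τ (y - x - τ • w)) • (y - x)) =
        inner ℝ θ (∫ y, A y • (y - x)) - τ * inner ℝ θ w := by
      rw [integral_inner hDv, hAvs, inner_add_right, inner_smul_right]
      ring
    have hb4 : ∀ y : E N, ‖(A y - hk τ (y - x - τ • w)) *
        (Real.exp (inner ℝ θ (y - x)) - 1 - inner ℝ θ (y - x))‖ ≤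
        θm ^ 2 * (Real.exp K * (K * τ * (hk τ (y - x - τ • w) *
      (‖y - x‖ ^ 2 * Real.exp ((C1 + θm) * ‖y - x‖))) +
        C1 * (hk τ (y - x - τ • w) * (‖y - x‖ ^ 3 * Real.exp ((C1 + θm) * ‖y - x‖))))) := by
      intro y
      rw [norm_mul, Real.norm_eq_abs, Real.norm_of_nonneg (exp_sub_nonneg _)]
      have h2 := exp_sub_le (inner ℝ θ (y - x))
      have h3 : inner ℝ θ (y - x) ^ 2 ≤ (θm * ‖y - x‖) ^ 2 := by
        rw [← sq_abs]
        exact pow_le_pow_left₀ (abs_nonneg _) (hs y) 2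
      have h4 : Real.exp |inner ℝ θ (y - x)| ≤ Real.exp (θm * ‖y - x‖) := Real.exp_le_exp.2 (hs y)
      have h5 : Real.exp (inner ℝ θ (y - x)) - 1 - inner ℝ θ (y - x) ≤
          (θm * ‖y - x‖) ^ 2 * Real.exp (θm * ‖y - x‖) :=
        h2.trans (mul_le_mul h3 h4 (Real.exp_pos _).le (sq_nonneg _))
      calc _ ≤ |A y - hk τ (y - x - τ • w)| * ((θm * ‖y - x‖) ^ 2 * Real.exp (θm * ‖y - x‖)) :=
            mul_le_mul_of_nonneg_left h5 (abs_nonneg _)
        _ = θm ^ 2 * (|A y - hk τ (y - x - τ • w)| *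
            (‖y - x‖ ^ 2 * Real.exp (θm * ‖y - x‖))) := by ring
        _ ≤ _ := mul_le_mul_of_nonneg_left (hD2 y) (sq_nonneg _)
    have I4 : Integrable (fun y : E N => (A y - hk τ (y - x - τ • w)) *
        (Real.exp (inner ℝ θ (y - x)) - 1 - inner ℝ θ (y - x))) := by
      refine Integrable.mono' (J2.const_mul (θm ^ 2)) (hDm.mul (by fun_prop)).aestronglyMeasurable
        (Filter.Eventually.of_forall hb4)
    have I4v : ∫ y : E N, (A y - hk τ (y - x - τ • w)) *
        (Real.exp (inner ℝ θ (y - x)) - 1 - inner ℝ θ (y - x)) ≤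
        Real.exp K * θm ^ 2 * (K * c2 + C1 * c3) * (τ * √τ) := by
      refine (le_abs_self _).trans ?_
      rw [← Real.norm_eq_abs]
      refine (norm_integral_le_of_norm_le (J2.const_mul (θm ^ 2))
        (Filter.Eventually.of_forall hb4)).trans ?_
      rw [integral_const_mul]
      have := mul_le_mul_of_nonneg_left J2b (sq_nonneg θm)
      linarith
    have hsplit : ∫ y, A y * Real.exp (inner ℝ θ (y - x)) =
        (∫ y : E N, hk τ (y - x - τ • w) * Real.exp (inner ℝ θ (y - x))) +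
        (∫ y : E N, (A y - hk τ (y - x - τ • w))) +
        (∫ y : E N, inner ℝ θ ((A y - hk τ (y - x - τ • w)) • (y - x))) +
        ∫ y : E N, (A y - hk τ (y - x - τ • w)) *
          (Real.exp (inner ℝ θ (y - x)) - 1 - inner ℝ θ (y - x)) := by
      have J12 : Integrable (fun y : E N => hk τ (y - x - τ • w) * Real.exp (inner ℝ θ (y - x)) +
          (A y - hk τ (y - x - τ • w))) := I1.add I2
      have J123 : Integrable (fun y : E N => hk τ (y - x - τ • w) *
          Real.exp (inner ℝ θ (y - x)) + (A y - hk τ (y - x - τ • w)) +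
          inner ℝ θ ((A y - hk τ (y - x - τ • w)) • (y - x))) := J12.add I3
      rw [← integral_add I1 I2, ← integral_add J12 I3, ← integral_add J123 I4]
      congr 1
      ext1 y
      rw [inner_smul_right]
      ring
    rw [hsplit, I1v, I2v, I3v]
    exact final h0 h1 hL hL0 (norm_nonneg θ) hθ
      ((abs_real_inner_le_norm _ _).trans (mul_le_mul hθ hw (norm_nonneg _) hθm.le)) hτr
      I4v (by positivity)

end Pool.Agent.H28.RF.PWA
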